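import Pool.Agent.H68.BJ.Defs

/-!
# ABL: Abel summation

Let `n j = #{v ∈ L | f v = j}`.  Then `∑ i ∈ range (j + 1), n i ≤ (2 j + 1) α`, and for `M`
larger than all `f v` (`v ∈ L`), `∑ v ∈ L, φ (f v) = ∑ j ∈ range M, φ j * n j`.
General fact (induction on `M`, `M ≥ 1`): if `φ` is antitone and nonnegative and the partial sums
of `e j` are nonnegative then `∑ j ∈ range M, φ j * e j ≥ φ (M - 1) * ∑ j ∈ range M, e j ≥ 0`.
Use it with `e j = 2 α - n j` for `j ≥ 1` and `e 0 = α - n 0` (partial sum up to `j` is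
`(2 j + 1) α - #{f ≤ j} ≥ 0`), or, losing a little, with `e j = 2 α - n j`.  Hence
`∑ v ∈ L, φ (f v) ≤ 2 α ∑ j ∈ range M, φ j ≤ 2 α S`.
-/

set_option autoImplicit false

namespace Pool.Agent.H68.BJ

theorem ABL_abel (φ e : ℕ → ℝ) (hφ : Antitone φ)
    (he : ∀ k, 0 ≤ ∑ j ∈ Finset.range k, e j) (M : ℕ) :
    φ M * ∑ j ∈ Finset.range M, e j ≤ ∑ j ∈ Finset.range M, φ j * e j := by
  induction M with
  | zero => simp
  | succ M ih =>
    rw [Finset.sum_range_succ (fun j => φ j * e j)]
    have h1 := he (M + 1)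
    have h2 : φ (M + 1) ≤ φ M := hφ (Nat.le_succ M)
    have h3 : φ (M + 1) * ∑ j ∈ Finset.range (M + 1), e j ≤
        φ M * ∑ j ∈ Finset.range (M + 1), e j := mul_le_mul_of_nonneg_right h2 h1
    rw [Finset.sum_range_succ] at h3 ⊢
    rw [mul_add (φ M)] at h3
    linarith

theorem abel_bound {V : Type} [DecidableEq V] (L : Finset V) (f : V → ℕ) (α : ℕ)
    (φ : ℕ → ℝ) (S : ℝ) (hφ : Antitone φ) (h0 : ∀ j, 0 ≤ φ j)
    (hS : ∀ m, ∑ j ∈ Finset.range m, φ j ≤ S)
    (hf : ∀ j, (L.filter (fun v => f v ≤ j)).card ≤ (2 * j + 1) * α) :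
    ∑ v ∈ L, φ (f v) ≤ 2 * α * S := by
  classical
  obtain ⟨M, hM⟩ : ∃ M, M = L.sup f + 1 := ⟨_, rfl⟩
  have hmap : ∀ v ∈ L, f v ∈ Finset.range M := by
    intro v hv
    rw [Finset.mem_range, hM]
    have := Finset.le_sup (f := f) hv
    omega
  have h1 : ∑ v ∈ L, φ (f v) =
      ∑ j ∈ Finset.range M, φ j * ((L.filter (fun v => f v = j)).card : ℝ) := by
    rw [← Finset.sum_fiberwise_of_maps_to hmap]
    apply Finset.sum_congr rfl
    intro j _
    rw [Finset.sum_congr rfl (g := fun _ => φ j)]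
    · rw [Finset.sum_const, nsmul_eq_mul, mul_comm]
    · intro v hv
      rw [(Finset.mem_filter.1 hv).2]
  let e : ℕ → ℝ := fun j => 2 * (α : ℝ) - ((L.filter (fun v => f v = j)).card : ℝ)
  have hpart : ∀ k, ∑ j ∈ Finset.range k, ((L.filter (fun v => f v = j)).card : ℝ) =
      ((L.filter (fun v => f v < k)).card : ℝ) := by
    intro k
    have h2 : (L.filter (fun v => f v < k)).card =
        ∑ j ∈ Finset.range k, (L.filter (fun v => f v = j)).card := by
      rw [Finset.card_eq_sum_card_fiberwise (f := f) (t := Finset.range k)]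
      · apply Finset.sum_congr rfl
        intro j hj
        rw [Finset.mem_range] at hj
        congr 1
        ext v
        simp only [Finset.mem_filter]
        constructor
        · rintro ⟨⟨a, _⟩, c⟩
          exact ⟨a, c⟩
        · rintro ⟨a, c⟩
          exact ⟨⟨a, by omega⟩, c⟩
      · intro v hv
        simp only [Finset.coe_filter, Set.mem_ofPred_eq] at hv
        simp only [Finset.coe_range, Set.mem_Iio]
        exact hv.2
    rw [h2]
    push_cast
    rfl
  have he : ∀ k, 0 ≤ ∑ j ∈ Finset.range k, e j := by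
    intro k
    simp only [e]
    rw [Finset.sum_sub_distrib, hpart k, Finset.sum_const, Finset.card_range, nsmul_eq_mul]
    rcases k with _ | k
    · simp
    · have h3 := hf k
      have h4 : (L.filter (fun v => f v < k + 1)) = (L.filter (fun v => f v ≤ k)) := by
        ext v
        simp only [Finset.mem_filter, Nat.lt_succ_iff]
      rw [h4]
      have h5 : ((L.filter (fun v => f v ≤ k)).card : ℝ) ≤ (2 * k + 1) * α := by
        exact_mod_cast h3
      push_cast
      have h6 : (0 : ℝ) ≤ α := Nat.cast_nonneg _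
      nlinarith
  have h7 := ABL_abel φ e hφ he M
  have h8 : 0 ≤ φ M * ∑ j ∈ Finset.range M, e j := mul_nonneg (h0 M) (he M)
  have h9 : ∑ j ∈ Finset.range M, φ j * e j = 2 * α * ∑ j ∈ Finset.range M, φ j -
      ∑ j ∈ Finset.range M, φ j * ((L.filter (fun v => f v = j)).card : ℝ) := by
    rw [Finset.mul_sum, ← Finset.sum_sub_distrib]
    apply Finset.sum_congr rfl
    intro j _
    simp only [e]
    ring
  have h10 : 2 * (α : ℝ) * ∑ j ∈ Finset.range M, φ j ≤ 2 * α * S :=
    mul_le_mul_of_nonneg_left (hS M) (by positivity)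
  rw [h1]
  linarith

end Pool.Agent.H68.BJ
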