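import Pool.Agent.H68.BJ.Defs

/-!
# CNT: the random colouring

`E` = arcs, `X` = variables; the colour of the arc `a` for `ω : X → ZMod ℓ` is
`ω (var a) + sgn a`.  For a family of sets `F i ⊆ E` such that `a ↦ (var a, sgn a)` is injective
on each `F i`, and a colour `κ`, the number of `ω` for which the colour `κ` is missing on `F i` is
`∏ y : X, (ℓ - g y)` where `g y = #{a ∈ F i | var a = y}` (the values `κ - sgn a` for these `a`
are distinct, and exactly they are forbidden for `ω y`; use `Fintype.piFinset`), and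
`ℓ - g ≤ ℓ (1 - 1/ℓ)^g` (Bernoulli: `one_add_mul_le_pow`, applied to `-1/ℓ ≥ -1`... here
`1 - g/ℓ ≤ (1 - 1/ℓ)^g`; if `g > ℓ` impossible).  So it is at most
`ℓ^#X * (1 - 1/ℓ)^(#(F i))`.  Union bound over `i` and `κ`: if
`∑ i, ℓ * (1 - 1/ℓ)^(#(F i)) < 1` then the total number of bad `ω` is `< ℓ^#X`, so some `ω` is
good.
-/

set_option autoImplicit false

namespace Pool.Agent.H68.BJ

private lemma CNT_bern (ℓ : ℕ) [NeZero ℓ] (g : ℕ) :
    (ℓ : ℝ) - g ≤ ℓ * (1 - 1 / (ℓ : ℝ)) ^ g := by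
  have hl : (1 : ℝ) ≤ ℓ := by
    have := NeZero.one_le (n := ℓ)
    exact_mod_cast this
  have hl0 : (0 : ℝ) < ℓ := by linarith
  have h1 : 1 + (g : ℝ) * (-(1 / (ℓ : ℝ))) ≤ (1 + -(1 / (ℓ : ℝ))) ^ g := by
    apply one_add_mul_le_pow
    have : 1 / (ℓ : ℝ) ≤ 1 := by rw [div_le_one hl0]; exact hl
    linarith
  have h2 : (ℓ : ℝ) * (1 + (g : ℝ) * (-(1 / (ℓ : ℝ)))) ≤ ℓ * (1 + -(1 / (ℓ : ℝ))) ^ g :=
    mul_le_mul_of_nonneg_left h1 hl0.le
  have h3 : (ℓ : ℝ) * (1 + (g : ℝ) * (-(1 / (ℓ : ℝ)))) = ℓ - g := by field_simp; ring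
  rw [h3] at h2
  exact h2

private lemma CNT_card {E X : Type} [Fintype X] [DecidableEq X] [DecidableEq E]
    (ℓ : ℕ) [NeZero ℓ] (F : Finset E) (var : E → X) (sgn : E → ZMod ℓ)
    (hinj : ∀ a ∈ F, ∀ b ∈ F, var a = var b → sgn a = sgn b → a = b) (κ : ZMod ℓ) :
    ((Finset.univ.filter fun ω : X → ZMod ℓ => ∀ a ∈ F, ω (var a) + sgn a ≠ κ).card : ℝ) ≤
      (ℓ : ℝ) ^ Fintype.card X * (1 - 1 / (ℓ : ℝ)) ^ F.card := by
  classical
  set g : X → ℕ := fun y => (F.filter fun a => var a = y).card with hg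
  set P : X → Finset (ZMod ℓ) := fun y =>
    Finset.univ.filter fun v => ∀ a ∈ F, var a = y → v + sgn a ≠ κ with hP
  have h1 : (Finset.univ.filter fun ω : X → ZMod ℓ => ∀ a ∈ F, ω (var a) + sgn a ≠ κ) =
      Fintype.piFinset P := by
    ext ω
    simp only [Finset.mem_filter, Finset.mem_univ, true_and, Fintype.mem_piFinset, hP]
    constructor
    · rintro h y a ha rfl
      exact h a ha
    · intro h a ha
      exact h (var a) a ha rfl
  have hcard : ∀ y, ((P y).card : ℝ) = ℓ - g y := by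
    intro y
    have h2 : (Finset.univ.filter fun v : ZMod ℓ => ¬ ∀ a ∈ F, var a = y → v + sgn a ≠ κ) =
        (F.filter fun a => var a = y).image fun a => κ - sgn a := by
      ext v
      simp only [Finset.mem_filter, Finset.mem_univ, true_and, Finset.mem_image]
      push Not
      constructor
      · rintro ⟨a, ha, hy, hv⟩
        exact ⟨a, ⟨ha, hy⟩, by rw [← hv]; ring⟩
      · rintro ⟨a, ⟨ha, hy⟩, hv⟩
        exact ⟨a, ha, hy, by rw [← hv]; ring⟩
    have h3 : ((F.filter fun a => var a = y).image fun a => κ - sgn a).card = g y := by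
      rw [Finset.card_image_of_injOn]
      intro a ha b hb hab
      simp only [Finset.coe_filter, Set.mem_ofPred_eq] at ha hb
      refine hinj a ha.1 b hb.1 (ha.2.trans hb.2.symm) ?_
      exact sub_right_injective hab
    have h4 := Finset.card_filter_add_card_filter_not (s := (Finset.univ : Finset (ZMod ℓ)))
      (fun v : ZMod ℓ => ∀ a ∈ F, var a = y → v + sgn a ≠ κ)
    rw [h2, h3, Finset.card_univ, ZMod.card] at h4
    have h5 : ((P y).card : ℝ) + g y = ℓ := by exact_mod_cast h4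
    linarith
  have hsum : ∑ y, g y = F.card := by
    rw [hg]
    exact (Finset.card_eq_sum_card_fiberwise (f := var) (t := Finset.univ)
      (fun a _ => by simp)).symm
  rw [h1, Fintype.card_piFinset]
  push_cast
  calc ∏ y, ((P y).card : ℝ) ≤ ∏ y, ((ℓ : ℝ) * (1 - 1 / (ℓ : ℝ)) ^ g y) := by
        refine Finset.prod_le_prod (fun y _ => Nat.cast_nonneg _) fun y _ => ?_
        rw [hcard y]
        exact CNT_bern ℓ (g y)
    _ = (ℓ : ℝ) ^ Fintype.card X * (1 - 1 / (ℓ : ℝ)) ^ F.card := by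
        rw [Finset.prod_mul_distrib, Finset.prod_const, Finset.card_univ,
          Finset.prod_pow_eq_pow_sum, hsum]

theorem exists_colouring {E X I : Type} [Fintype X] [DecidableEq X] [DecidableEq E]
    (ℓ : ℕ) [NeZero ℓ] (J : Finset I) (F : I → Finset E) (var : E → X) (sgn : E → ZMod ℓ)
    (hinj : ∀ i ∈ J, ∀ a ∈ F i, ∀ b ∈ F i, var a = var b → sgn a = sgn b → a = b)
    (hsum : ∑ i ∈ J, (ℓ : ℝ) * (1 - 1 / (ℓ : ℝ)) ^ (F i).card < 1) :
    ∃ ω : X → ZMod ℓ, ∀ i ∈ J, ∀ κ : ZMod ℓ, ∃ a ∈ F i, ω (var a) + sgn a = κ := by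
  classical
  by_contra hcon
  push Not at hcon
  have hl : (1 : ℝ) ≤ ℓ := by
    have := NeZero.one_le (n := ℓ)
    exact_mod_cast this
  set Bad : I → ZMod ℓ → Finset (X → ZMod ℓ) := fun i κ =>
    Finset.univ.filter fun ω => ∀ a ∈ F i, ω (var a) + sgn a ≠ κ with hBad
  have h1 : (Finset.univ : Finset (X → ZMod ℓ)) ⊆ J.biUnion fun i =>
      Finset.univ.biUnion fun κ => Bad i κ := by
    intro ω _
    obtain ⟨i, hi, κ, hκ⟩ := hcon ω
    simp only [Finset.mem_biUnion, Finset.mem_univ, true_and, hBad, Finset.mem_filter]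
    exact ⟨i, hi, κ, hκ⟩
  have h2 : Fintype.card (X → ZMod ℓ) ≤ ∑ i ∈ J, ∑ κ : ZMod ℓ, (Bad i κ).card := by
    rw [← Finset.card_univ]
    refine (Finset.card_le_card h1).trans (Finset.card_biUnion_le.trans ?_)
    exact Finset.sum_le_sum fun i _ => Finset.card_biUnion_le
  have h3 : ((Fintype.card (X → ZMod ℓ) : ℕ) : ℝ) = (ℓ : ℝ) ^ Fintype.card X := by
    rw [Fintype.card_fun, ZMod.card]; push_cast; rfl
  have h4 : (ℓ : ℝ) ^ Fintype.card X ≤ ∑ i ∈ J, ∑ κ : ZMod ℓ, ((Bad i κ).card : ℝ) := by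
    rw [← h3]; exact_mod_cast h2
  have h5 : ∑ i ∈ J, ∑ κ : ZMod ℓ, ((Bad i κ).card : ℝ) ≤
      (ℓ : ℝ) ^ Fintype.card X * ∑ i ∈ J, (ℓ : ℝ) * (1 - 1 / (ℓ : ℝ)) ^ (F i).card := by
    rw [Finset.mul_sum]
    refine Finset.sum_le_sum fun i hi => ?_
    calc ∑ κ : ZMod ℓ, ((Bad i κ).card : ℝ)
        ≤ ∑ _κ : ZMod ℓ, (ℓ : ℝ) ^ Fintype.card X * (1 - 1 / (ℓ : ℝ)) ^ (F i).card :=
          Finset.sum_le_sum fun κ _ => CNT_card ℓ (F i) var sgn (hinj i hi) κ
      _ = _ := by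
          rw [Finset.sum_const, Finset.card_univ, ZMod.card, nsmul_eq_mul]; ring
  have h6 : (0 : ℝ) < (ℓ : ℝ) ^ Fintype.card X := by positivity
  have h7 : (ℓ : ℝ) ^ Fintype.card X * ∑ i ∈ J, (ℓ : ℝ) * (1 - 1 / (ℓ : ℝ)) ^ (F i).card <
      (ℓ : ℝ) ^ Fintype.card X * 1 := mul_lt_mul_of_pos_left hsum h6
  linarith

end Pool.Agent.H68.BJ
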