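import Pool.Agent.H68.BJ.FIN

/-!
# COR: corollaries of the main theorem
-/

set_option autoImplicit false

namespace Pool.Agent.H68.BJ

open Finset

theorem outDeg_eq {V : Type} [DecidableEq V] [Fintype V] (A : Finset (V × V))
    (hA : ∀ v : V, (v, v) ∉ A) (v : V) : outDeg A v = dIn A (univ.erase v) := by
  unfold outDeg dIn
  congr 1
  ext a
  simp only [mem_filter, mem_erase, mem_univ, and_true, not_not]
  constructor
  · rintro ⟨h1, h2⟩
    refine ⟨h1, h2, fun h3 => hA v ?_⟩
    have : a = (v, v) := Prod.ext h2 h3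
    rwa [this] at h1
  · rintro ⟨h1, h2, _⟩
    exact ⟨h1, h2⟩

theorem inDeg_eq {V : Type} [DecidableEq V] [Fintype V] (A : Finset (V × V))
    (hA : ∀ v : V, (v, v) ∉ A) (v : V) : inDeg A v = dIn A {v} := by
  unfold inDeg dIn
  congr 1
  ext a
  simp only [mem_filter, mem_singleton]
  constructor
  · rintro ⟨h1, h2⟩
    refine ⟨h1, fun h3 => hA v ?_, h2⟩
    have : a = (v, v) := Prod.ext h3 h2
    rwa [this] at h1
  · rintro ⟨h1, _, h2⟩
    exact ⟨h1, h2⟩

theorem outDeg_lt {V : Type} [DecidableEq V] [Fintype V] (A : Finset (V × V))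
    (hA : ∀ v : V, (v, v) ∉ A) (v : V) : outDeg A v < Fintype.card V := by
  unfold outDeg
  calc (A.filter (fun a => a.1 = v)).card
      ≤ (univ.erase v).card := by
        apply card_le_card_of_injOn (fun a => a.2)
        · intro a ha
          simp only [coe_filter, Set.mem_ofPred_eq] at ha
          simp only [coe_erase, coe_univ, Set.mem_sdiff, Set.mem_univ, Set.mem_singleton_iff,
            true_and]
          intro h
          apply hA v
          have : a = (v, v) := Prod.ext ha.2 h
          rw [← this]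
          exact ha.1
        · intro a ha b hb hab
          simp only [coe_filter, Set.mem_ofPred_eq] at ha hb
          exact Prod.ext (ha.2.trans hb.2.symm) hab
    _ < Fintype.card V := by
        rw [card_erase_of_mem (mem_univ v), card_univ]
        have : 0 < Fintype.card V := Fintype.card_pos_iff.2 ⟨v⟩
        omega

/-- Every digraph on `n` vertices whose arc-connectivity is at least about `√(n log n)`. -/
theorem general {V : Type} [Fintype V] [DecidableEq V] (ℓ K : ℕ) (hℓ : 1 ≤ ℓ)
    (A : Finset (V × V)) (hA : ∀ v : V, (v, v) ∉ A)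
    (hs : Pool.Agent.H67.BJY.ArcStrong K A)
    (hK : 12 * (ℓ ^ 2 * Fintype.card V) * (2 * Nat.log 2 (ℓ ^ 2 * Fintype.card V) + 9) ≤ K ^ 2) :
    ∃ B : Fin ℓ → Finset (V × V), (∀ i, B i ⊆ A) ∧ (∀ i j, i ≠ j → Disjoint (B i) (B j)) ∧
      ∀ i u v, Reach (B i) u v := by
  classical
  by_cases hsub : Subsingleton V
  · refine ⟨fun _ => ∅, fun _ => empty_subset _, fun _ _ _ => disjoint_empty_left _, ?_⟩
    intro _ u v
    rw [Subsingleton.elim u v]
    exact Relation.ReflTransGen.refl
  have hnt : Nontrivial V := not_subsingleton_iff_nontrivial.1 hsub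
  obtain ⟨v0, v1, hv01⟩ := exists_pair_ne V
  have hn : 2 ≤ Fintype.card V := Fintype.one_lt_card
  set n := Fintype.card V with hn_def
  have hout : ∀ v, K ≤ outDeg A v := by
    intro v
    rw [outDeg_eq A hA]
    apply cut_of_arcStrong K A hs
    · rcases eq_or_ne v v0 with h | h
      · exact ⟨v1, by rw [mem_erase]; exact ⟨by rw [h]; exact hv01.symm, mem_univ _⟩⟩
      · exact ⟨v0, by rw [mem_erase]; exact ⟨h.symm, mem_univ _⟩⟩
    · intro h
      have := mem_univ v
      rw [← h] at this
      simp at this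
  have hin : ∀ v, K ≤ inDeg A v := by
    intro v
    rw [inDeg_eq A hA]
    apply cut_of_arcStrong K A hs
    · exact ⟨v, by simp⟩
    · intro h
      rcases eq_or_ne v v0 with h2 | h2
      · have := mem_univ v1
        rw [← h, mem_singleton, h2] at this
        exact hv01 this.symm
      · have := mem_univ v0
        rw [← h, mem_singleton] at this
        exact h2 this.symm
  have hKn : K < n := lt_of_le_of_lt (hout v0) (outDeg_lt A hA v0)
  have hKpos : 0 < K := by
    rcases Nat.eq_zero_or_pos K with h | h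
    · rw [h] at hK
      have h1 : 0 < ℓ ^ 2 * n := by positivity
      have h2 : 0 < 12 * (ℓ ^ 2 * n) * (2 * Nat.log 2 (ℓ ^ 2 * n) + 9) := by positivity
      simp at hK
      omega
    · exact h
  set x := (n + K - 1) / K with hx_def
  have hx1 : n ≤ x * K := by
    have h1 : (n + K - 1) < (x + 1) * K := by
      rw [hx_def]
      have := Nat.lt_mul_div_succ (n + K - 1) hKpos
      rw [mul_comm] at this
      exact this
    have h2 : (x + 1) * K = x * K + K := by ring
    omega
  have hx2 : x * K ≤ 2 * n := by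
    have h1 : x * K ≤ n + K - 1 := Nat.div_mul_le_self _ _
    omega
  have hxn : x ≤ n := by
    by_contra h
    push Not at h
    have h1 : (n + 1) * K ≤ x * K := Nat.mul_le_mul_right _ h
    have h2 : x * K ≤ n + K - 1 := Nat.div_mul_le_self _ _
    have h3 : n * 1 ≤ n * K := Nat.mul_le_mul_left _ hKpos
    have h4 : (n + 1) * K = n * K + K := by ring
    omega
  have hKx : 6 * (ℓ ^ 2 * x) * (2 * Nat.log 2 (ℓ ^ 2 * x) + 9) ≤ K := by
    have h1 : 6 * (ℓ ^ 2 * x) * (2 * Nat.log 2 (ℓ ^ 2 * x) + 9) * K ≤ K * K := by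
      have h2 : Nat.log 2 (ℓ ^ 2 * x) ≤ Nat.log 2 (ℓ ^ 2 * n) :=
        Nat.log_mono_right (Nat.mul_le_mul_left _ hxn)
      calc 6 * (ℓ ^ 2 * x) * (2 * Nat.log 2 (ℓ ^ 2 * x) + 9) * K
          = 6 * ℓ ^ 2 * (x * K) * (2 * Nat.log 2 (ℓ ^ 2 * x) + 9) := by ring
        _ ≤ 6 * ℓ ^ 2 * (2 * n) * (2 * Nat.log 2 (ℓ ^ 2 * n) + 9) := by
            apply Nat.mul_le_mul
            · exact Nat.mul_le_mul_left _ hx2
            · omega
        _ = 12 * (ℓ ^ 2 * n) * (2 * Nat.log 2 (ℓ ^ 2 * n) + 9) := by ring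
        _ ≤ K ^ 2 := hK
        _ = K * K := by ring
    exact Nat.le_of_mul_le_mul_right h1 hKpos
  have hempty : ∀ (f : V → ℕ), (∀ v, K ≤ f v) → ∀ I : Finset V,
      (∀ v ∈ I, x * f v < Fintype.card V) → I.card ≤ x := by
    intro f hf I hI
    rcases I.eq_empty_or_nonempty with h | ⟨v, hv⟩
    · rw [h]; simp
    · exfalso
      have h1 := hI v hv
      have h2 : x * K ≤ x * f v := Nat.mul_le_mul_left _ (hf v)
      omega
  exact main ℓ x K hℓ hKx A hA hs (fun I _ h => hempty _ hout I h) (fun I _ h => hempty _ hin I h)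

end Pool.Agent.H68.BJ
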