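import Mathlib

/-!
# Project MP_e82622_BJ (helper68): arc-disjoint strong spanning subdigraphs

Theorem (MP_e82622_co, Bang-Jensen and Yeo conjecture for two large families).
Let `ℓ, x ≥ 1` and let `D` be a digraph on `n` vertices (no loops, no parallel arcs) that is
`K`-arc-strong with `K ≥ 6 ℓ² x (2 log₂ (ℓ² x) + 9)`.  Suppose that every set of pairwise
non-adjacent vertices of out-degree `< n / x` has at most `x` elements and every set of pairwise
non-adjacent vertices of in-degree `< n / x` has at most `x` elements.  Then `D` has `ℓ` pairwise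
arc-disjoint strong spanning subdigraphs.

Paper proof (complete).  Call `φ : ℕ → ℝ` *nice* if it is antitone, nonnegative, and all its
partial sums are at most `S`.

Step 1 (MED, DEG, ABL, ORD, OUT).  There is a ranking `ρ : V → ℤ` with
`∑ v, φ (fwd A ρ v) ≤ 3 x S`, `fwd A ρ v` = number of arcs from `v` to a vertex of larger rank.
The same holds for the reversed digraph (second ranking `τ`).
Step 2.  Take `c = ℓ m`, `φ j = 1` for `j < c` and `φ j = (1 - 1/ℓ)^(j - c)` for `j ≥ c`
(`S = c + ℓ`).  Let `Zt = {v | fwd A ρ v < c}`, `Zs = {v | fwd (rev A) τ v < c}`; both have at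
most `3 x S` elements, so `ℓ (|Zt| + |Zs|) ≤ K`.
Step 3 (EDM, PTH).  By Edmonds' branching theorem (arbitrary roots) there are `ℓ (|Zt| + |Zs|)`
arc-disjoint paths: `ℓ` paths from each `z ∈ Zt` to a fixed vertex `r` and `ℓ` paths from `r` to
each `z ∈ Zs`; a path uses at most one out-arc and at most one in-arc at each vertex.
Step 4 (CNT).  Colour the arcs: the `i`-th path of the hub `z` gets the colour `i + ω z`, an arc
on no path gets its own random colour; `ω` uniformly random.  The out-arcs of `v` to larger rank
are on distinct paths, so a given colour is missing on them with probability at most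
`(1 - 1/ℓ) ^ (fwd A ρ v)`.  The sum of all these probabilities over `v ∉ Zt` (and `v ∉ Zs` for the
reversed digraph) and all colours is `< 1`.  Fix a colouring with no missing colour.
Step 5 (FIN).  In each colour: every vertex reaches `Zt` by arcs of increasing rank, `Zt` reaches
`r`, `r` reaches `Zs` and `Zs` reaches every vertex.  So each colour class is strong.
-/

set_option autoImplicit false

namespace Pool.Agent.H68.BJ

/-- `v` is reachable from `u` by arcs of `B`. -/
def Reach {V : Type} (B : Finset (V × V)) (u v : V) : Prop :=
  Relation.ReflTransGen (fun a b : V => (a, b) ∈ B) u v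

section
variable {V : Type} [DecidableEq V]

/-- Number of arcs of `A` entering the vertex set `X`. -/
def dIn (A : Finset (V × V)) (X : Finset V) : ℕ :=
  (A.filter (fun a => a.1 ∉ X ∧ a.2 ∈ X)).card

/-- Out-degree. -/
def outDeg (A : Finset (V × V)) (v : V) : ℕ := (A.filter (fun a => a.1 = v)).card

/-- In-degree. -/
def inDeg (A : Finset (V × V)) (v : V) : ℕ := (A.filter (fun a => a.2 = v)).card

/-- The reversed digraph. -/
def rev (A : Finset (V × V)) : Finset (V × V) := A.image Prod.swap

/-- The arcs of `A` from `v` to a vertex of larger rank. -/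
def fwdSet (A : Finset (V × V)) (ρ : V → ℤ) (v : V) : Finset (V × V) :=
  A.filter (fun a => a.1 = v ∧ ρ v < ρ a.2)

/-- The number of arcs of `A` from `v` to a vertex of larger rank. -/
def fwd (A : Finset (V × V)) (ρ : V → ℤ) (v : V) : ℕ := (fwdSet A ρ v).card

/-- The number of arcs of `A` to `v` from a vertex of `L` of larger rank. -/
def bwd (A : Finset (V × V)) (ρ : V → ℤ) (v : V) : ℕ :=
  (A.filter (fun a => a.2 = v ∧ ρ v < ρ a.1)).card

/-- No arc of `A` joins two different elements of `S`. -/
def Indep (A : Finset (V × V)) (S : Finset V) : Prop :=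
  ∀ u ∈ S, ∀ v ∈ S, u ≠ v → (u, v) ∉ A

/-- The arcs of `A` with both ends in `L`. -/
def restr (A : Finset (V × V)) (L : Finset V) : Finset (V × V) :=
  A.filter (fun a => a.1 ∈ L ∧ a.2 ∈ L)

end

end Pool.Agent.H68.BJ
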