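import Pool.Agent.H68.BJ.Defs

/-!
# EDM: Edmonds' disjoint branching theorem, arbitrary roots

Proof (Lovasz).  Induction on `m`; for `m = 0` nothing to do.  For `m + 1` let `r = s 0` (or the
last root) and `p' X = #{i ≥ 1 | s i ∉ X}`, so that `p X = p' X + [r ∉ X]`.
Claim: for every `U ∋ r` (grow `U` from `{r}` to `univ`) there is `F ⊆ A` such that
(a) every arc of `F` has both ends in `U`; (b) every `v ∈ U` is reachable from `r` in `F`;
(c) `p' X ≤ dIn (A \ F) X` for all nonempty `X`.
Start: `U = {r}`, `F = ∅`.  Step: let `U ≠ univ`; call `X` nonempty *tight* if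
`dIn (A \ F) X = p' X`.  If some tight `X` has `X \ U ≠ ∅`, take one with `#X` minimal.
For `X` with `X ∩ U = ∅` we have `r ∉ X`, no arc of `F` enters `X`, so
`dIn (A \ F) X = dIn A X ≥ p' X + 1`.  Apply this to `X \ U`:
`dIn (A \ F) (X \ U) ≥ p' (X \ U) + 1 ≥ p' X + 1 > dIn (A \ F) X`, so some arc `(u, v) ∈ A \ F`
enters `X \ U` but not `X`: `v ∈ X \ U`, `u ∈ X ∩ U`.  If there is no tight `X` with
`X \ U ≠ ∅`, take any arc from `U` to `univ \ U` (exists as `dIn A (univ \ U) ≥ p (univ \ U) ≥ 1`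
because `r ∈ U`).  Claim: `(u, v)` enters no tight `Y` (then `F ∪ {(u,v)}`, `U ∪ {v}` is fine).
Otherwise `v ∈ Y`, `u ∉ Y` (so `Y \ U ≠ ∅` and the second case is impossible) and, as `p'` is
modular and `dIn` is submodular,
`dIn (X ∩ Y) + dIn (X ∪ Y) ≤ dIn X + dIn Y = p' X + p' Y = p' (X ∩ Y) + p' (X ∪ Y)` gives
`X ∩ Y` tight, `v ∈ (X ∩ Y) \ U`, and `X ∩ Y` is a proper subset of `X` (`u ∈ X \ Y`),
contradiction with minimality.
With `U = univ`: `B 0 = F` and the induction hypothesis for `A \ F` and the other roots.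
-/

set_option autoImplicit false

namespace Pool.Agent.H68.BJ

section EDM
variable {V : Type} [DecidableEq V]

theorem EDM_sub (A : Finset (V × V)) (X Y : Finset V) :
    dIn A (X ∩ Y) + dIn A (X ∪ Y) ≤ dIn A X + dIn A Y := by
  unfold dIn
  simp only [Finset.card_filter]
  rw [← Finset.sum_add_distrib, ← Finset.sum_add_distrib]
  refine Finset.sum_le_sum fun a _ => ?_
  simp only [Finset.mem_inter, Finset.mem_union]
  by_cases h1 : a.1 ∈ X <;> by_cases h2 : a.2 ∈ X <;> by_cases h3 : a.1 ∈ Y <;>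
    by_cases h4 : a.2 ∈ Y <;> simp [h1, h2, h3, h4]

theorem EDM_mod {m : ℕ} (s : Fin m → V) (X Y : Finset V) :
    (Finset.univ.filter (fun i : Fin m => s i ∉ X ∩ Y)).card +
      (Finset.univ.filter (fun i : Fin m => s i ∉ X ∪ Y)).card =
    (Finset.univ.filter (fun i : Fin m => s i ∉ X)).card +
      (Finset.univ.filter (fun i : Fin m => s i ∉ Y)).card := by
  simp only [Finset.card_filter]
  rw [← Finset.sum_add_distrib, ← Finset.sum_add_distrib]
  refine Finset.sum_congr rfl fun i _ => ?_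
  simp only [Finset.mem_inter, Finset.mem_union]
  by_cases h1 : s i ∈ X <;> by_cases h2 : s i ∈ Y <;> simp [h1, h2]

theorem EDM_anti {m : ℕ} (s : Fin m → V) {X Y : Finset V} (h : X ⊆ Y) :
    (Finset.univ.filter (fun i : Fin m => s i ∉ Y)).card ≤
      (Finset.univ.filter (fun i : Fin m => s i ∉ X)).card := by
  refine Finset.card_le_card fun i hi => ?_
  rw [Finset.mem_filter] at hi ⊢
  exact ⟨hi.1, fun hc => hi.2 (h hc)⟩

omit [DecidableEq V] in
theorem EDM_mono {B C : Finset (V × V)} (h : B ⊆ C) {u v : V} (hr : Reach B u v) :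
    Reach C u v := by
  unfold Reach at hr ⊢
  induction hr with
  | refl => exact Relation.ReflTransGen.refl
  | tail _ hab ih => exact ih.tail (h hab)

/-- one step of the growth -/
theorem EDM_step [Fintype V] {m : ℕ} (A : Finset (V × V)) (r : V) (s : Fin m → V)
    (hA : ∀ X : Finset V, X.Nonempty → r ∉ X →
      (Finset.univ.filter (fun i : Fin m => s i ∉ X)).card + 1 ≤ dIn A X)
    (U : Finset V) (F : Finset (V × V)) (hrU : r ∈ U) (hFA : F ⊆ A)
    (hends : ∀ a ∈ F, a.1 ∈ U ∧ a.2 ∈ U) (hreach : ∀ v ∈ U, Reach F r v)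
    (hc : ∀ X : Finset V, X.Nonempty →
      (Finset.univ.filter (fun i : Fin m => s i ∉ X)).card ≤ dIn (A \ F) X)
    (hU : U ≠ Finset.univ) :
    ∃ (U' : Finset V) (F' : Finset (V × V)), U'.card = U.card + 1 ∧ r ∈ U' ∧ F' ⊆ A ∧
      (∀ a ∈ F', a.1 ∈ U' ∧ a.2 ∈ U') ∧ (∀ v ∈ U', Reach F' r v) ∧
      ∀ X : Finset V, X.Nonempty →
        (Finset.univ.filter (fun i : Fin m => s i ∉ X)).card ≤ dIn (A \ F') X := by
  -- sets avoiding `U`
  have hav : ∀ X : Finset V, X.Nonempty → Disjoint X U →
      (Finset.univ.filter (fun i : Fin m => s i ∉ X)).card + 1 ≤ dIn (A \ F) X := by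
    intro X hX hd
    refine (hA X hX (fun hr => (Finset.disjoint_left.1 hd hr) hrU)).trans ?_
    unfold dIn
    refine Finset.card_le_card fun a ha => ?_
    rw [Finset.mem_filter] at ha ⊢
    refine ⟨Finset.mem_sdiff.2 ⟨ha.1, fun haF => ?_⟩, ha.2⟩
    exact (Finset.disjoint_left.1 hd ha.2.2) (hends a haF).2
  -- the new arc
  obtain ⟨a, haA, haU, hau, hnt⟩ : ∃ a ∈ A \ F, a.1 ∈ U ∧ a.2 ∉ U ∧ ∀ Y : Finset V, Y.Nonempty →
      a.1 ∉ Y → a.2 ∈ Y →
      dIn (A \ F) Y ≠ (Finset.univ.filter (fun i : Fin m => s i ∉ Y)).card := by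
    by_cases hex : ∃ X : Finset V, X.Nonempty ∧
        dIn (A \ F) X = (Finset.univ.filter (fun i : Fin m => s i ∉ X)).card ∧ ¬ X ⊆ U
    · set T : Finset (Finset V) := Finset.univ.filter (fun X : Finset V => X.Nonempty ∧
        dIn (A \ F) X = (Finset.univ.filter (fun i : Fin m => s i ∉ X)).card ∧ ¬ X ⊆ U) with hT
      have hTn : T.Nonempty := by
        obtain ⟨X, hX⟩ := hex
        exact ⟨X, by rw [hT, Finset.mem_filter]; exact ⟨Finset.mem_univ _, hX⟩⟩
      obtain ⟨X, hXT, hmin⟩ := Finset.exists_min_image T Finset.card hTn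
      rw [hT, Finset.mem_filter] at hXT
      obtain ⟨-, hXn, hXt, hXU⟩ := hXT
      have hne : (X \ U).Nonempty := Finset.sdiff_nonempty.2 hXU
      have h1 := hav (X \ U) hne Finset.sdiff_disjoint
      have h2 := EDM_anti s (Finset.sdiff_subset : X \ U ⊆ X)
      have h3 : ¬ ((A \ F).filter (fun a => a.1 ∉ X \ U ∧ a.2 ∈ X \ U) ⊆
          (A \ F).filter (fun a => a.1 ∉ X ∧ a.2 ∈ X)) := by
        intro hsub
        have := Finset.card_le_card hsub
        unfold dIn at hXt h1
        omega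
      rw [Finset.not_subset] at h3
      obtain ⟨a, ha1, ha2⟩ := h3
      rw [Finset.mem_filter] at ha1 ha2
      obtain ⟨haA, ha3, ha4⟩ := ha1
      rw [Finset.mem_sdiff] at ha3 ha4
      have ha5 : a.1 ∈ X := by
        by_contra hcon
        exact ha2 ⟨haA, hcon, ha4.1⟩
      have ha6 : a.1 ∈ U := by
        by_contra hcon
        exact ha3 ⟨ha5, hcon⟩
      refine ⟨a, haA, ha6, ha4.2, fun Y hY hY1 hY2 hYt => ?_⟩
      have hn : (X ∩ Y).Nonempty := ⟨a.2, Finset.mem_inter.2 ⟨ha4.1, hY2⟩⟩
      have hn' : (X ∪ Y).Nonempty := ⟨a.2, Finset.mem_union.2 (Or.inr hY2)⟩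
      have e1 := EDM_sub (A \ F) X Y
      have e2 := EDM_mod s X Y
      have e3 := hc _ hn
      have e4 := hc _ hn'
      have hm : X ∩ Y ∈ T := by
        rw [hT, Finset.mem_filter]
        refine ⟨Finset.mem_univ _, hn, by omega, fun hsub => ha4.2 (hsub ?_)⟩
        exact Finset.mem_inter.2 ⟨ha4.1, hY2⟩
      have h4 := hmin _ hm
      have h5 : (X ∩ Y).card < X.card := by
        refine Finset.card_lt_card (Finset.ssubset_iff_subset_ne.2
          ⟨Finset.inter_subset_left, fun he => ?_⟩)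
        rw [← he] at ha5
        exact hY1 (Finset.mem_inter.1 ha5).2
      omega
    · push Not at hex
      have hne : (Finset.univ \ U).Nonempty := by
        rw [Finset.sdiff_nonempty]
        exact fun hsub => hU (Finset.univ_subset_iff.1 hsub)
      have h1 := hav (Finset.univ \ U) hne Finset.sdiff_disjoint
      have h2 : 0 < dIn (A \ F) (Finset.univ \ U) := by omega
      unfold dIn at h2
      obtain ⟨a, ha⟩ := Finset.card_pos.1 h2
      rw [Finset.mem_filter, Finset.mem_sdiff (s := Finset.univ), Finset.mem_sdiff (s := Finset.univ)] at ha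
      have ha6 : a.1 ∈ U := by
        by_contra hcon
        exact ha.2.1 ⟨Finset.mem_univ _, hcon⟩
      refine ⟨a, ha.1, ha6, ha.2.2.2, fun Y hY hY1 hY2 hYt => ?_⟩
      exact ha.2.2.2 (hex Y hY hYt hY2)
  refine ⟨insert a.2 U, insert a F, Finset.card_insert_of_notMem hau,
    Finset.mem_insert_of_mem hrU, ?_, ?_, ?_, ?_⟩
  · intro b hb
    rcases Finset.mem_insert.1 hb with rfl | hb
    · exact (Finset.mem_sdiff.1 haA).1
    · exact hFA hb
  · intro b hb
    rcases Finset.mem_insert.1 hb with rfl | hb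
    · exact ⟨Finset.mem_insert_of_mem haU, Finset.mem_insert_self _ _⟩
    · exact ⟨Finset.mem_insert_of_mem (hends b hb).1, Finset.mem_insert_of_mem (hends b hb).2⟩
  · intro v hv
    rcases Finset.mem_insert.1 hv with rfl | hv
    · refine Relation.ReflTransGen.tail (EDM_mono (Finset.subset_insert a F) (hreach a.1 haU)) ?_
      exact Finset.mem_insert_self _ _
    · exact EDM_mono (Finset.subset_insert a F) (hreach v hv)
  · intro Y hY
    by_cases hen : a.1 ∉ Y ∧ a.2 ∈ Y
    · have h1 := hc Y hY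
      have h2 := hnt Y hY hen.1 hen.2
      have h3 : dIn (A \ F) Y ≤ dIn (A \ insert a F) Y + 1 := by
        unfold dIn
        have : (A \ F).filter (fun b => b.1 ∉ Y ∧ b.2 ∈ Y) ⊆
            insert a ((A \ insert a F).filter (fun b => b.1 ∉ Y ∧ b.2 ∈ Y)) := by
          intro b hb
          rw [Finset.mem_filter, Finset.mem_sdiff] at hb
          rw [Finset.mem_insert, Finset.mem_filter, Finset.mem_sdiff, Finset.mem_insert]
          by_cases hba : b = a
          · exact Or.inl hba
          · exact Or.inr ⟨⟨hb.1.1, fun hc => hc.elim hba hb.1.2⟩, hb.2⟩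
        exact (Finset.card_le_card this).trans (Finset.card_insert_le _ _)
      omega
    · refine (hc Y hY).trans ?_
      unfold dIn
      refine Finset.card_le_card fun b hb => ?_
      rw [Finset.mem_filter, Finset.mem_sdiff] at hb
      rw [Finset.mem_filter, Finset.mem_sdiff, Finset.mem_insert]
      refine ⟨⟨hb.1.1, fun hc => hc.elim (fun hba => ?_) hb.1.2⟩, hb.2⟩
      rw [hba] at hb
      exact hen hb.2

theorem EDM_grow [Fintype V] {m : ℕ} (A : Finset (V × V)) (r : V) (s : Fin m → V)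
    (hA : ∀ X : Finset V, X.Nonempty → r ∉ X →
      (Finset.univ.filter (fun i : Fin m => s i ∉ X)).card + 1 ≤ dIn A X)
    (hA' : ∀ X : Finset V, X.Nonempty →
      (Finset.univ.filter (fun i : Fin m => s i ∉ X)).card ≤ dIn A X) (k : ℕ) :
    k + 1 ≤ Fintype.card V →
    ∃ (U : Finset V) (F : Finset (V × V)), U.card = k + 1 ∧ r ∈ U ∧ F ⊆ A ∧
      (∀ a ∈ F, a.1 ∈ U ∧ a.2 ∈ U) ∧ (∀ v ∈ U, Reach F r v) ∧
      ∀ X : Finset V, X.Nonempty →
        (Finset.univ.filter (fun i : Fin m => s i ∉ X)).card ≤ dIn (A \ F) X := by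
  induction k with
  | zero =>
    intro _
    refine ⟨{r}, ∅, by simp, by simp, by simp, by simp, ?_, ?_⟩
    · intro v hv
      rw [Finset.mem_singleton] at hv
      rw [hv]
      exact Relation.ReflTransGen.refl
    · intro X hX
      rw [Finset.sdiff_empty]
      exact hA' X hX
  | succ k ih =>
    intro hk
    obtain ⟨U, F, h1, h2, h3, h4, h5, h6⟩ := ih (by omega)
    obtain ⟨U', F', g1, g2⟩ := EDM_step A r s hA U F h2 h3 h4 h5 h6 (by
      rintro rfl
      rw [Finset.card_univ] at h1
      omega)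
    exact ⟨U', F', by omega, g2⟩

end EDM

theorem edmonds {V : Type} [Fintype V] [DecidableEq V] (m : ℕ) :
    ∀ (A : Finset (V × V)) (s : Fin m → V),
      (∀ X : Finset V, X.Nonempty →
        (Finset.univ.filter (fun i : Fin m => s i ∉ X)).card ≤ dIn A X) →
      ∃ B : Fin m → Finset (V × V), (∀ i, B i ⊆ A) ∧
        (∀ i j, i ≠ j → Disjoint (B i) (B j)) ∧ ∀ i v, Reach (B i) (s i) v := by
  induction m with
  | zero =>
    intro A s _
    exact ⟨fun i => i.elim0, fun i => i.elim0, fun i => i.elim0, fun i => i.elim0⟩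
  | succ m ih =>
    intro A s hs
    have hsplit : ∀ X : Finset V, (Finset.univ.filter (fun i : Fin (m + 1) => s i ∉ X)).card =
        (if s 0 ∉ X then 1 else 0) +
          (Finset.univ.filter (fun i : Fin m => s i.succ ∉ X)).card := by
      intro X
      rw [Finset.card_filter, Fin.sum_univ_succ, Finset.card_filter]
    have hcard : 0 < Fintype.card V := Fintype.card_pos_iff.2 ⟨s 0⟩
    obtain ⟨U, F, h1, h2, h3, h4, h5, h6⟩ := EDM_grow A (s 0) (fun i : Fin m => s i.succ)
      (fun X hX hr => by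
        have := hs X hX
        rw [hsplit X, if_pos hr] at this
        omega)
      (fun X hX => by
        have := hs X hX
        rw [hsplit X] at this
        omega) (Fintype.card V - 1) (by omega)
    have hU : U = Finset.univ := by
      rw [← Finset.card_eq_iff_eq_univ]
      omega
    obtain ⟨B, hB1, hB2, hB3⟩ := ih (A \ F) (fun i : Fin m => s i.succ) h6
    refine ⟨Fin.cons F B, ?_, ?_, ?_⟩
    · intro i
      refine Fin.cases ?_ (fun i => ?_) i
      · rw [Fin.cons_zero]; exact h3
      · rw [Fin.cons_succ]; exact (hB1 i).trans Finset.sdiff_subset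
    · have hd : ∀ i, Disjoint F (B i) := fun i =>
        Disjoint.mono_right (hB1 i) Finset.disjoint_sdiff
      intro i j
      refine Fin.cases ?_ (fun i => ?_) i
      · refine Fin.cases ?_ (fun j => ?_) j
        · intro hne; exact absurd rfl hne
        · intro _
          rw [Fin.cons_zero, Fin.cons_succ]
          exact hd j
      · refine Fin.cases ?_ (fun j => ?_) j
        · intro _
          rw [Fin.cons_zero, Fin.cons_succ]
          exact (hd i).symm
        · intro hne
          rw [Fin.cons_succ, Fin.cons_succ]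
          exact hB2 i j (fun he => hne (by rw [he]))
    · intro i v
      refine Fin.cases ?_ (fun i => ?_) i
      · rw [Fin.cons_zero]
        exact h5 v (by rw [hU]; exact Finset.mem_univ _)
      · rw [Fin.cons_succ]
        exact hB3 i v

end Pool.Agent.H68.BJ
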