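import Pool.Agent.H68.BJ.Defs

/-!
# ORD: extending a ranking (derandomised random order)

For `a b : ℕ` let `E a b = (∑ j ∈ range (b + 1), φ (a + j)) / (b + 1)`.
For `U : Finset V` and `v ∉ U` let `a v`, `b v` be the numbers of arcs of `A` from `v` to `U`
and from `v` to `Uᶜ`.

`extend`: induction on `#Uᶜ`.  If `Uᶜ = ∅` take `ρ' = ρ`.  Otherwise let `N = #Uᶜ ≥ 1`.  For
`w ∈ Uᶜ` let `G w = φ (a w) + ∑ v ∈ Uᶜ \ {w}, E (a v + [(v,w) ∈ A]) (b v - [(v,w) ∈ A])`
(the potential after placing `w`).  Then `∑ w ∈ Uᶜ, G w = N * ∑ v ∈ Uᶜ, E (a v) (b v)`: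
exchange the sums; for fixed `v` the contribution is
`φ (a v) + b v * E (a v + 1) (b v - 1) + (N - 1 - b v) * E (a v) (b v) = N * E (a v) (b v)`,
because `(b + 1) * E a b = φ a + b * E (a + 1) (b - 1)` (no loops, so `b v` counts `w ≠ v`).
Hence some `w` has `G w ≤ ∑ v ∈ Uᶜ, E (a v) (b v)`.  Put `ρ₁ = update ρ w (m - 1)`, `m` a lower
bound of `ρ` on `U` (e.g. below all values of `ρ`), and apply the induction hypothesis to
`insert w U` and `ρ₁`.  In the resulting `ρ'` all elements of `U` have larger rank than `w` and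
all other elements have smaller rank, so `fwd A ρ' w = a w`.

`avg_le`: for antitone nonnegative `φ` with partial sums `≤ S`: `E a b ≤ S / (a + b + 1)`.
Let `T = ∑ j ∈ range (b + 1), φ (a + j) ≤ (b + 1) φ a`.  Then
`S ≥ ∑ j ∈ range (a + b + 1), φ j ≥ a φ a + T ≥ a T / (b + 1) + T = (a + b + 1) T / (b + 1)`.
-/

set_option autoImplicit false

namespace Pool.Agent.H68.BJ

/-- Average of `φ` on `a, a + 1, …, a + b`. -/
noncomputable def avg (φ : ℕ → ℝ) (a b : ℕ) : ℝ :=
  (∑ j ∈ Finset.range (b + 1), φ (a + j)) / ((b : ℝ) + 1)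

theorem avg_le (φ : ℕ → ℝ) (S : ℝ) (hφ : Antitone φ) (h0 : ∀ j, 0 ≤ φ j)
    (hS : ∀ m, ∑ j ∈ Finset.range m, φ j ≤ S) (a b : ℕ) :
    avg φ a b ≤ S / ((a : ℝ) + b + 1) := by
  unfold avg
  set T : ℝ := ∑ j ∈ Finset.range (b + 1), φ (a + j) with hT
  have h1 : T ≤ ((b : ℝ) + 1) * φ a := by
    calc T ≤ ∑ _j ∈ Finset.range (b + 1), φ a :=
          Finset.sum_le_sum fun j _ => hφ (Nat.le_add_right a j)
      _ = ((b : ℝ) + 1) * φ a := by
          rw [Finset.sum_const, Finset.card_range, nsmul_eq_mul]; push_cast; ring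
  have h2 : (a : ℝ) * φ a + T ≤ S := by
    have h3 := hS (a + (b + 1))
    rw [Finset.sum_range_add] at h3
    have h4 : (a : ℝ) * φ a ≤ ∑ j ∈ Finset.range a, φ j := by
      calc (a : ℝ) * φ a = ∑ _j ∈ Finset.range a, φ a := by
            rw [Finset.sum_const, Finset.card_range, nsmul_eq_mul]
        _ ≤ ∑ j ∈ Finset.range a, φ j :=
            Finset.sum_le_sum fun j hj => hφ (Finset.mem_range.1 hj).le
    linarith
  have ha : (0 : ℝ) ≤ a := Nat.cast_nonneg a
  have hb : (0 : ℝ) ≤ b := Nat.cast_nonneg b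
  rw [div_le_div_iff₀ (by linarith) (by linarith)]
  have h5 : (a : ℝ) * T ≤ (a : ℝ) * (((b : ℝ) + 1) * φ a) := mul_le_mul_of_nonneg_left h1 ha
  have h6 : ((a : ℝ) * φ a + T) * ((b : ℝ) + 1) ≤ S * ((b : ℝ) + 1) :=
    mul_le_mul_of_nonneg_right h2 (by linarith)
  nlinarith

theorem ORD_avg_succ (φ : ℕ → ℝ) (a b : ℕ) :
    ((b : ℝ) + 2) * avg φ a (b + 1) = φ a + ((b : ℝ) + 1) * avg φ (a + 1) b := by
  unfold avg
  have hb : (0 : ℝ) ≤ b := Nat.cast_nonneg b
  rw [Finset.sum_range_succ' (fun j => φ (a + j)) (b + 1)]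
  have h1 : ∑ j ∈ Finset.range (b + 1), φ (a + (j + 1)) = ∑ j ∈ Finset.range (b + 1), φ (a + 1 + j) :=
    Finset.sum_congr rfl fun j _ => by rw [show a + (j + 1) = a + 1 + j by ring]
  rw [h1]
  push_cast
  have h2 : (b : ℝ) + 1 + 1 ≠ 0 := by linarith
  have h3 : (b : ℝ) + 1 ≠ 0 := by linarith
  rw [add_zero, mul_div_cancel₀ _ h3, show (b : ℝ) + 2 = b + 1 + 1 by ring, mul_div_cancel₀ _ h2]
  ring

theorem ORD_avg_zero (φ : ℕ → ℝ) (a : ℕ) : avg φ a 0 = φ a := by
  unfold avg; simp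

section
variable {V : Type} [Fintype V] [DecidableEq V]

/-- arcs from `v` into `U` -/
def ORD_al (A : Finset (V × V)) (U : Finset V) (v : V) : ℕ :=
  (A.filter (fun a => a.1 = v ∧ a.2 ∈ U)).card

/-- arcs from `v` into the complement of `U` -/
def ORD_be (A : Finset (V × V)) (U : Finset V) (v : V) : ℕ :=
  (A.filter (fun a => a.1 = v ∧ a.2 ∉ U)).card

omit [Fintype V] in
theorem ORD_al_insert (A : Finset (V × V)) (U : Finset V) (v w : V) (hw : w ∉ U) :
    ORD_al A (insert w U) v = ORD_al A U v + if (v, w) ∈ A then 1 else 0 := by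
  unfold ORD_al
  have h1 : A.filter (fun a => a.1 = v ∧ a.2 ∈ insert w U)
      = A.filter (fun a => a.1 = v ∧ a.2 ∈ U) ∪ A.filter (fun a => a = (v, w)) := by
    ext ⟨x, y⟩
    simp only [Finset.mem_filter, Finset.mem_union, Finset.mem_insert, Prod.mk.injEq]
    tauto
  have h2 : Disjoint (A.filter (fun a => a.1 = v ∧ a.2 ∈ U)) (A.filter (fun a => a = (v, w))) := by
    rw [Finset.disjoint_filter]
    rintro ⟨x, y⟩ _ ⟨_, h4⟩ h5
    rw [Prod.mk.injEq] at h5
    exact hw (h5.2 ▸ h4)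
  rw [h1, Finset.card_union_of_disjoint h2, Finset.filter_eq']
  congr 1
  split_ifs <;> simp

omit [Fintype V] in
theorem ORD_be_insert (A : Finset (V × V)) (U : Finset V) (v w : V) (hw : w ∉ U) :
    ORD_be A U v = ORD_be A (insert w U) v + if (v, w) ∈ A then 1 else 0 := by
  unfold ORD_be
  have h1 : A.filter (fun a => a.1 = v ∧ a.2 ∉ U)
      = A.filter (fun a => a.1 = v ∧ a.2 ∉ insert w U) ∪ A.filter (fun a => a = (v, w)) := by
    ext ⟨x, y⟩
    simp only [Finset.mem_filter, Finset.mem_union, Finset.mem_insert, Prod.mk.injEq, not_or]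
    constructor
    · rintro ⟨h2, h3, h4⟩
      by_cases h5 : y = w
      · right; exact ⟨h2, h3, h5⟩
      · left; exact ⟨h2, h3, h5, h4⟩
    · rintro (⟨h2, h3, h4, h5⟩ | ⟨h2, h3, h4⟩)
      · exact ⟨h2, h3, h5⟩
      · exact ⟨h2, h3, h4 ▸ hw⟩
  have h2 : Disjoint (A.filter (fun a => a.1 = v ∧ a.2 ∉ insert w U))
      (A.filter (fun a => a = (v, w))) := by
    rw [Finset.disjoint_filter]
    rintro ⟨x, y⟩ _ ⟨_, h4⟩ h5
    rw [Prod.mk.injEq] at h5
    exact h4 (h5.2 ▸ Finset.mem_insert_self _ _)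
  rw [h1, Finset.card_union_of_disjoint h2, Finset.filter_eq']
  congr 1
  split_ifs <;> simp

theorem ORD_be_card (A : Finset (V × V)) (hA : ∀ v : V, (v, v) ∉ A) (U : Finset V) (v : V) :
    ((Uᶜ.erase v).filter (fun w => (v, w) ∈ A)).card = ORD_be A U v := by
  unfold ORD_be
  apply Finset.card_bij (fun w _ => (v, w))
  · intro w hw
    simp only [Finset.mem_filter, Finset.mem_erase, Finset.mem_compl] at hw ⊢
    exact ⟨hw.2, trivial, hw.1.2⟩
  · intro w _ w' _ h
    exact (Prod.mk.inj h).2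
  · rintro ⟨x, y⟩ hxy
    simp only [Finset.mem_filter] at hxy
    obtain ⟨h1, h2, h3⟩ := hxy
    subst h2
    refine ⟨y, ?_, rfl⟩
    simp only [Finset.mem_filter, Finset.mem_erase, Finset.mem_compl]
    exact ⟨⟨fun h => hA x (h ▸ h1), h3⟩, h1⟩

theorem ORD_key (A : Finset (V × V)) (hA : ∀ v : V, (v, v) ∉ A) (φ : ℕ → ℝ) (U : Finset V) (v : V)
    (hv : v ∉ U) :
    φ (ORD_al A U v) + ∑ w ∈ Uᶜ.erase v, avg φ (ORD_al A (insert w U) v) (ORD_be A (insert w U) v)
      = ((Uᶜ).card : ℝ) * avg φ (ORD_al A U v) (ORD_be A U v) := by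
  set a := ORD_al A U v with ha
  set b := ORD_be A U v with hb
  have hvU : v ∈ Uᶜ := Finset.mem_compl.2 hv
  rw [← Finset.sum_filter_add_sum_filter_not (Uᶜ.erase v) (fun w => (v, w) ∈ A)]
  have hcard := ORD_be_card A hA U v
  have hN : ((Uᶜ.erase v).filter (fun w => (v, w) ∈ A)).card
      + ((Uᶜ.erase v).filter (fun w => ¬ (v, w) ∈ A)).card = (Uᶜ.erase v).card :=
    Finset.card_filter_add_card_filter_not _
  have hN2 : (Uᶜ.erase v).card + 1 = (Uᶜ).card := Finset.card_erase_add_one hvU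
  rw [hcard, ← hb] at hN
  have hnw : ∀ w ∈ (Uᶜ.erase v), w ∉ U := fun w hw =>
    Finset.mem_compl.1 (Finset.mem_of_mem_erase hw)
  have s2 : ∑ w ∈ (Uᶜ.erase v).filter (fun w => ¬ (v, w) ∈ A),
      avg φ (ORD_al A (insert w U) v) (ORD_be A (insert w U) v)
      = (((Uᶜ.erase v).filter (fun w => ¬ (v, w) ∈ A)).card : ℝ) * avg φ a b := by
    rw [← nsmul_eq_mul, ← Finset.sum_const]
    refine Finset.sum_congr rfl fun w hw => ?_
    rw [Finset.mem_filter] at hw
    have h1 := ORD_al_insert A U v w (hnw w hw.1)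
    have h2 := ORD_be_insert A U v w (hnw w hw.1)
    rw [if_neg hw.2, add_zero] at h1 h2
    rw [h1, ← h2]
  rcases Nat.eq_zero_or_pos b with hb0 | hbpos
  · have hempty : (Uᶜ.erase v).filter (fun w => (v, w) ∈ A) = ∅ := by
      rw [← Finset.card_eq_zero, hcard, ← hb, hb0]
    rw [s2, hempty, Finset.sum_empty, zero_add, ← hN2, ← hN, hb0, ORD_avg_zero]
    push_cast
    ring
  · obtain ⟨c, hc⟩ : ∃ c, b = c + 1 := ⟨b - 1, by omega⟩
    have s1 : ∑ w ∈ (Uᶜ.erase v).filter (fun w => (v, w) ∈ A),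
        avg φ (ORD_al A (insert w U) v) (ORD_be A (insert w U) v)
        = ((c : ℝ) + 1) * avg φ (a + 1) c := by
      have hcc : (((Uᶜ.erase v).filter (fun w => (v, w) ∈ A)).card : ℝ) = (c : ℝ) + 1 := by
        rw [hcard, ← hb, hc]; push_cast; ring
      rw [← hcc, ← nsmul_eq_mul, ← Finset.sum_const]
      refine Finset.sum_congr rfl fun w hw => ?_
      rw [Finset.mem_filter] at hw
      have h1 := ORD_al_insert A U v w (hnw w hw.1)
      have h2 := ORD_be_insert A U v w (hnw w hw.1)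
      rw [if_pos hw.2] at h1 h2
      have h3 : ORD_be A (insert w U) v = c := by omega
      rw [h1, h3]
    have hrec := ORD_avg_succ φ a c
    rw [s1, s2, ← hN2, ← hN, hc]
    push_cast
    linear_combination (-1 : ℝ) * hrec

end

theorem extend {V : Type} [Fintype V] [DecidableEq V] (A : Finset (V × V))
    (hA : ∀ v : V, (v, v) ∉ A) (φ : ℕ → ℝ) :
    ∀ (k : ℕ) (U : Finset V) (ρ : V → ℤ), (Uᶜ).card = k →
      ∃ ρ' : V → ℤ, (∀ v ∈ U, ρ' v = ρ v) ∧ (∀ v ∉ U, ∀ u ∈ U, ρ' v < ρ' u) ∧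
        ∑ v ∈ Uᶜ, φ (fwd A ρ' v) ≤
          ∑ v ∈ Uᶜ, avg φ ((A.filter (fun a => a.1 = v ∧ a.2 ∈ U)).card)
            ((A.filter (fun a => a.1 = v ∧ a.2 ∉ U)).card) := by
  intro k
  induction k with
  | zero =>
    intro U ρ hk
    rw [Finset.card_eq_zero] at hk
    refine ⟨ρ, fun v _ => rfl, ?_, by simp [hk]⟩
    intro v hv
    exfalso
    have : v ∈ Uᶜ := Finset.mem_compl.2 hv
    rw [hk] at this
    simp at this
  | succ n ih =>
    intro U ρ hk
    change ∃ ρ' : V → ℤ, (∀ v ∈ U, ρ' v = ρ v) ∧ (∀ v ∉ U, ∀ u ∈ U, ρ' v < ρ' u) ∧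
        ∑ v ∈ Uᶜ, φ (fwd A ρ' v) ≤ ∑ v ∈ Uᶜ, avg φ (ORD_al A U v) (ORD_be A U v)
    have hne : (Uᶜ).Nonempty := by
      rw [← Finset.card_pos, hk]; omega
    -- the potential after placing w
    set G : V → ℝ := fun w => φ (ORD_al A U w) + ∑ v ∈ Uᶜ.erase w,
      avg φ (ORD_al A (insert w U) v) (ORD_be A (insert w U) v) with hG
    set P : ℝ := ∑ v ∈ Uᶜ, avg φ (ORD_al A U v) (ORD_be A U v) with hP
    have hsum : ∑ w ∈ Uᶜ, G w = ∑ _w ∈ Uᶜ, P := by
      have h1 : ∑ w ∈ Uᶜ, ∑ v ∈ Uᶜ.erase w,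
          avg φ (ORD_al A (insert w U) v) (ORD_be A (insert w U) v)
          = ∑ v ∈ Uᶜ, ∑ w ∈ Uᶜ.erase v,
          avg φ (ORD_al A (insert w U) v) (ORD_be A (insert w U) v) := by
        apply Finset.sum_comm'
        intro x y
        simp only [Finset.mem_erase, ne_eq]
        tauto
      simp only [hG, Finset.sum_add_distrib]
      rw [h1, ← Finset.sum_add_distrib, Finset.sum_const, nsmul_eq_mul, hP, Finset.mul_sum]
      refine Finset.sum_congr rfl fun v hv => ?_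
      exact ORD_key A hA φ U v (Finset.mem_compl.1 hv)
    obtain ⟨w, hw, hGw⟩ := Finset.exists_le_of_sum_le hne hsum.le
    have hwU : w ∉ U := Finset.mem_compl.1 hw
    obtain ⟨m, hm⟩ : ∃ m : ℤ, ∀ v, m ≤ ρ v := by
      obtain ⟨m, hm⟩ := (Set.finite_range ρ).bddBelow
      exact ⟨m, fun v => hm (Set.mem_range_self v)⟩
    have hcomp : (insert w U)ᶜ = Uᶜ.erase w := by
      ext x
      simp only [Finset.mem_compl, Finset.mem_insert, Finset.mem_erase, not_or, ne_eq]
    have hcard : ((insert w U)ᶜ).card = n := by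
      rw [hcomp, Finset.card_erase_of_mem hw, hk]; omega
    obtain ⟨ρ', h1, h2, h3⟩ := ih (insert w U) (Function.update ρ w (m - 1)) hcard
    have hρw : ρ' w = m - 1 := by
      rw [h1 w (Finset.mem_insert_self _ _), Function.update_self]
    have hρU : ∀ v ∈ U, ρ' v = ρ v := by
      intro v hv
      have hvw : v ≠ w := fun h => hwU (h ▸ hv)
      rw [h1 v (Finset.mem_insert_of_mem hv), Function.update_of_ne hvw]
    refine ⟨ρ', hρU, ?_, ?_⟩
    · intro v hv u hu
      by_cases hvw : v = w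
      · subst hvw
        rw [hρw, hρU u hu]
        have := hm u
        omega
      · apply h2 v _ u (Finset.mem_insert_of_mem hu)
        rw [Finset.mem_insert]
        tauto
    · have hfw : fwd A ρ' w = ORD_al A U w := by
        unfold fwd fwdSet ORD_al
        congr 1
        apply Finset.filter_congr
        rintro ⟨x, y⟩ _
        simp only
        constructor
        · rintro ⟨h4, h5⟩
          refine ⟨h4, ?_⟩
          by_contra hy
          by_cases hyw : y = w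
          · rw [hyw] at h5; exact lt_irrefl _ h5
          · have h6 := h2 y (by rw [Finset.mem_insert]; tauto) w (Finset.mem_insert_self _ _)
            omega
        · rintro ⟨h4, h5⟩
          refine ⟨h4, ?_⟩
          rw [hρw, hρU y h5]
          have := hm y
          omega
      rw [← Finset.add_sum_erase _ _ hw, hfw]
      rw [hcomp] at h3
      have h4 : φ (ORD_al A U w) + ∑ x ∈ Uᶜ.erase w, φ (fwd A ρ' x) ≤ G w := by
        simp only [hG]
        have h5 : ∑ x ∈ Uᶜ.erase w, φ (fwd A ρ' x) ≤ ∑ v ∈ Uᶜ.erase w,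
            avg φ (ORD_al A (insert w U) v) (ORD_be A (insert w U) v) := h3
        linarith
      exact h4.trans hGw

end Pool.Agent.H68.BJ
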