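import Pool.Agent.H68.BJ.MED
import Pool.Agent.H68.BJ.ABL
import Pool.Agent.H68.BJ.ORD

/-!
# OUT: the ranking of step 1

Let `L = {v | x * outDeg A v < n}`, `n = card V`.  Let `ρ₀` be the ranking of `median` for the
digraph `restr A L`.  By `indep_of_few` (for `restr A L`) and the hypothesis (an independent set
`I ⊆ L` for `restr A L` is independent for `A`, so `#I ≤ x`),
`#{v ∈ L | fwd (restr A L) ρ₀ v ≤ j} ≤ (2 j + 1) x` for all `j`, so by `abel_bound`
`∑ v ∈ L, φ (fwd (restr A L) ρ₀ v) ≤ 2 x S`.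
Apply `extend` with `U = L`, `ρ = ρ₀`.  For `v ∈ L`, `fwd A ρ' v = fwd (restr A L) ρ₀ v` (the
vertices outside `L` have smaller rank, on `L` nothing changed).  For `v ∉ L`, `avg_le` gives a
bound `S / (outDeg A v + 1) ≤ S x / n` (as `n ≤ x * outDeg A v`, `n ≥ 1`), so the sum over
`v ∉ L` is at most `x S`.  Total `≤ 3 x S`.
-/

set_option autoImplicit false

namespace Pool.Agent.H68.BJ

theorem OUT_split {V : Type} [DecidableEq V] (A : Finset (V × V)) (L : Finset V) (v : V) :
    (A.filter (fun a => a.1 = v ∧ a.2 ∈ L)).card + (A.filter (fun a => a.1 = v ∧ a.2 ∉ L)).card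
      = outDeg A v := by
  unfold outDeg
  rw [← Finset.card_union_of_disjoint]
  · congr 1
    ext a
    simp only [Finset.mem_union, Finset.mem_filter]
    tauto
  · rw [Finset.disjoint_filter]
    intro a _ h1 h2
    exact h2.2 h1.2

theorem out_ranking {V : Type} [Fintype V] [DecidableEq V] (A : Finset (V × V))
    (hA : ∀ v : V, (v, v) ∉ A) (x : ℕ)
    (hI : ∀ I : Finset V, Indep A I → (∀ v ∈ I, x * outDeg A v < Fintype.card V) → I.card ≤ x)
    (φ : ℕ → ℝ) (S : ℝ) (hφ : Antitone φ) (h0 : ∀ j, 0 ≤ φ j)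
    (hS : ∀ m, ∑ j ∈ Finset.range m, φ j ≤ S) :
    ∃ ρ : V → ℤ, ∑ v, φ (fwd A ρ v) ≤ 3 * x * S := by
  have hS0 : 0 ≤ S := by simpa using hS 0
  set L : Finset V := Finset.univ.filter (fun v => x * outDeg A v < Fintype.card V) with hL
  have hmemL : ∀ v, v ∈ L ↔ x * outDeg A v < Fintype.card V := by
    intro v
    rw [hL, Finset.mem_filter]
    simp
  obtain ⟨ρ₀, hinj, hb⟩ := median (restr A L) (by
    intro v hv
    exact hA v (Finset.mem_filter.1 hv).1)
  have h1 : ∑ v ∈ L, φ (fwd (restr A L) ρ₀ v) ≤ 2 * x * S := by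
    apply abel_bound L _ x φ S hφ h0 hS
    intro j
    obtain ⟨I, hIZ, hind, hcard⟩ := indep_of_few (restr A L) ρ₀ hinj hb j
      (L.filter (fun v => fwd (restr A L) ρ₀ v ≤ j)) (fun v hv => (Finset.mem_filter.1 hv).2)
    have hIL : ∀ v ∈ I, v ∈ L := fun v hv => (Finset.mem_filter.1 (hIZ hv)).1
    have hIx : I.card ≤ x := by
      apply hI I
      · intro u hu v hv huv hmem
        exact hind u hu v hv huv (Finset.mem_filter.2 ⟨hmem, hIL u hu, hIL v hv⟩)
      · intro v hv
        exact (hmemL v).1 (hIL v hv)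
    exact hcard.trans (Nat.mul_le_mul_left _ hIx)
  obtain ⟨ρ', hρ1, hρ2, hρ3⟩ := extend A hA φ _ L ρ₀ rfl
  refine ⟨ρ', ?_⟩
  have h2 : ∑ v ∈ L, φ (fwd A ρ' v) = ∑ v ∈ L, φ (fwd (restr A L) ρ₀ v) := by
    apply Finset.sum_congr rfl
    intro v hv
    congr 1
    unfold fwd
    congr 1
    ext a
    unfold fwdSet restr
    simp only [Finset.mem_filter]
    constructor
    · rintro ⟨ha, hav, hlt⟩
      have ha2 : a.2 ∈ L := by
        by_contra hcon
        exact absurd hlt (not_lt.2 (hρ2 a.2 hcon v hv).le)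
      rw [hρ1 v hv, hρ1 a.2 ha2] at hlt
      exact ⟨⟨ha, by rw [hav]; exact hv, ha2⟩, hav, hlt⟩
    · rintro ⟨⟨ha, _, ha2⟩, hav, hlt⟩
      refine ⟨ha, hav, ?_⟩
      rw [hρ1 v hv, hρ1 a.2 ha2]
      exact hlt
  have h3 : ∑ v ∈ Lᶜ, φ (fwd A ρ' v) ≤ x * S := by
    refine hρ3.trans ?_
    by_cases hV : Fintype.card V = 0
    · have hempty : Lᶜ = ∅ := by
        apply Finset.eq_empty_of_forall_notMem
        intro v
        exact absurd hV (Fintype.card_pos_iff.2 ⟨v⟩).ne'
      rw [hempty, Finset.sum_empty]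
      positivity
    · have hn : (0 : ℝ) < Fintype.card V := by
        exact_mod_cast Nat.pos_of_ne_zero hV
      have h4 : ∀ v ∈ Lᶜ, avg φ ((A.filter (fun a => a.1 = v ∧ a.2 ∈ L)).card)
            ((A.filter (fun a => a.1 = v ∧ a.2 ∉ L)).card) ≤ x * S / Fintype.card V := by
        intro v hv
        refine (avg_le φ S hφ h0 hS _ _).trans ?_
        have h5 : (((A.filter (fun a => a.1 = v ∧ a.2 ∈ L)).card : ℕ) : ℝ)
            + (((A.filter (fun a => a.1 = v ∧ a.2 ∉ L)).card : ℕ) : ℝ) = (outDeg A v : ℝ) := by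
          exact_mod_cast OUT_split A L v
        rw [h5]
        have h6 : (Fintype.card V : ℝ) ≤ x * outDeg A v := by
          have : ¬ (x * outDeg A v < Fintype.card V) := fun h =>
            (Finset.mem_compl.1 hv) ((hmemL v).2 h)
          exact_mod_cast not_lt.1 this
        rw [div_le_div_iff₀ (by positivity) hn]
        have h7 : (0 : ℝ) ≤ x := Nat.cast_nonneg x
        nlinarith
      calc ∑ v ∈ Lᶜ, avg φ ((A.filter (fun a => a.1 = v ∧ a.2 ∈ L)).card)
            ((A.filter (fun a => a.1 = v ∧ a.2 ∉ L)).card)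
          ≤ ∑ v ∈ Lᶜ, (x * S / Fintype.card V : ℝ) := Finset.sum_le_sum h4
        _ = (Lᶜ.card : ℝ) * (x * S / Fintype.card V) := by rw [Finset.sum_const, nsmul_eq_mul]
        _ ≤ (Fintype.card V : ℝ) * (x * S / Fintype.card V) := by
            apply mul_le_mul_of_nonneg_right _ (by positivity)
            exact_mod_cast Finset.card_le_univ _
        _ = x * S := by field_simp
  rw [← Finset.sum_add_sum_compl L, h2]
  linarith

end Pool.Agent.H68.BJ
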