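import Pool.Agent.H68.BJ.Defs

/-!
# PTH: extracting a path

Proof.  Let `d w` be the length of a shortest walk from `u` to `w` in `B` (for reachable `w`).
By induction on `n`: if `w` has distance `n` then there is `P ⊆ B` with `Reach P u w`, such that
every `(a, b) ∈ P` has `a`, `b` reachable, `d b = d a + 1 ≤ n`, and for every `k` there is at
most one arc `(a, b) ∈ P` with `d a = k`.  (Take the last arc `(y, w)` of a shortest walk, so
`d y = n - 1`, and add it to the set for `y`.)  Two arcs of `P` with the same tail have the same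
`d a`, hence are equal; two arcs with the same head have `d a = d b - 1` equal, hence are equal.
(Alternatively: take `P ⊆ B` of minimum cardinality with `Reach P u v`, or use a nodup list.)
-/

set_option autoImplicit false

namespace Pool.Agent.H68.BJ

/-- Walks of length `n` from `u`. -/
def PTH_W {V : Type} (B : Finset (V × V)) (u : V) : ℕ → V → Prop
  | 0, w => w = u
  | n + 1, w => ∃ y, PTH_W B u n y ∧ (y, w) ∈ B

/-- `w` is at distance exactly `k` from `u`. -/
def PTH_D {V : Type} (B : Finset (V × V)) (u : V) (k : ℕ) (w : V) : Prop :=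
  PTH_W B u k w ∧ ∀ m < k, ¬ PTH_W B u m w

theorem PTH_D_unique {V : Type} (B : Finset (V × V)) (u w : V) (k l : ℕ)
    (hk : PTH_D B u k w) (hl : PTH_D B u l w) : k = l := by
  rcases lt_trichotomy k l with h | h | h
  · exact (hl.2 k h hk.1).elim
  · exact h
  · exact (hk.2 l h hl.1).elim

theorem PTH_walk {V : Type} (B : Finset (V × V)) (u v : V) (h : Reach B u v) :
    ∃ n, PTH_W B u n v := by
  unfold Reach at h
  induction h with
  | refl => exact ⟨0, rfl⟩
  | tail _ hbc ih =>
    obtain ⟨n, hn⟩ := ih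
    exact ⟨n + 1, _, hn, hbc⟩

theorem PTH_mono {V : Type} {B C : Finset (V × V)} (h : B ⊆ C) {u v : V} (huv : Reach B u v) :
    Reach C u v := by
  unfold Reach at *
  induction huv with
  | refl => exact Relation.ReflTransGen.refl
  | tail _ hbc ih => exact ih.tail (h hbc)

theorem PTH_main {V : Type} [DecidableEq V] (B : Finset (V × V)) (u : V) :
    ∀ (n : ℕ) (w : V), PTH_D B u n w →
      ∃ P : Finset (V × V), P ⊆ B ∧ Reach P u w ∧
        (∀ a ∈ P, ∃ k < n, PTH_D B u k a.1 ∧ PTH_D B u (k + 1) a.2) ∧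
        (∀ a ∈ P, ∀ b ∈ P, ∀ k, PTH_D B u k a.1 → PTH_D B u k b.1 → a = b) := by
  intro n
  induction n with
  | zero =>
    intro w hw
    have : w = u := hw.1
    subst this
    exact ⟨∅, Finset.empty_subset _, Relation.ReflTransGen.refl, by simp, by simp⟩
  | succ n ih =>
    intro w hw
    obtain ⟨y, hy, hyw⟩ := hw.1
    have hyD : PTH_D B u n y := by
      refine ⟨hy, fun m hm h => ?_⟩
      exact hw.2 (m + 1) (by omega) ⟨y, h, hyw⟩
    obtain ⟨P, hPB, hPr, hP1, hP2⟩ := ih y hyD
    refine ⟨insert (y, w) P, ?_, ?_, ?_, ?_⟩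
    · intro a ha
      rw [Finset.mem_insert] at ha
      rcases ha with rfl | ha
      · exact hyw
      · exact hPB ha
    · have h1 : Reach (insert (y, w) P) u y := PTH_mono (Finset.subset_insert _ _) hPr
      exact h1.tail (Finset.mem_insert_self _ _)
    · intro a ha
      rw [Finset.mem_insert] at ha
      rcases ha with rfl | ha
      · exact ⟨n, by omega, hyD, hw⟩
      · obtain ⟨k, hk, h1, h2⟩ := hP1 a ha
        exact ⟨k, by omega, h1, h2⟩
    · intro a ha b hb k hka hkb
      rw [Finset.mem_insert] at ha hb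
      rcases ha with rfl | ha
      · rcases hb with rfl | hb
        · rfl
        · exfalso
          obtain ⟨j, hj, h1, _⟩ := hP1 b hb
          have e1 := PTH_D_unique B u _ _ _ hyD hka
          have e2 := PTH_D_unique B u _ _ _ h1 hkb
          omega
      · rcases hb with rfl | hb
        · exfalso
          obtain ⟨j, hj, h1, _⟩ := hP1 a ha
          have e1 := PTH_D_unique B u _ _ _ hyD hkb
          have e2 := PTH_D_unique B u _ _ _ h1 hka
          omega
        · exact hP2 a ha b hb k hka hkb

theorem exists_path {V : Type} [Fintype V] [DecidableEq V] (B : Finset (V × V)) (u v : V)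
    (h : Reach B u v) :
    ∃ P : Finset (V × V), P ⊆ B ∧ Reach P u v ∧
      (∀ a ∈ P, ∀ b ∈ P, a.1 = b.1 → a = b) ∧ (∀ a ∈ P, ∀ b ∈ P, a.2 = b.2 → a = b) := by
  classical
  have hw := PTH_walk B u v h
  have hD : PTH_D B u (Nat.find hw) v := ⟨Nat.find_spec hw, fun m hm => Nat.find_min hw hm⟩
  obtain ⟨P, hPB, hPr, hP1, hP2⟩ := PTH_main B u _ v hD
  refine ⟨P, hPB, hPr, ?_, ?_⟩
  · intro a ha b hb hab
    obtain ⟨k, _, h1, _⟩ := hP1 a ha
    exact hP2 a ha b hb k h1 (hab ▸ h1)
  · intro a ha b hb hab
    obtain ⟨k, _, h1, h2⟩ := hP1 a ha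
    obtain ⟨l, _, h3, h4⟩ := hP1 b hb
    have h5 : PTH_D B u (l + 1) a.2 := by rw [hab]; exact h4
    have h6 : k = l := by
      have := PTH_D_unique B u _ _ _ h2 h5
      omega
    subst h6
    exact hP2 a ha b hb k h1 h3

end Pool.Agent.H68.BJ
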