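import Pool.Agent.H67.BJY
import Pool.Agent.H68.BJ.EDM
import Pool.Agent.H68.BJ.PTH
import Pool.Agent.H68.BJ.OUT
import Pool.Agent.H68.BJ.CNT

/-!
# FIN: assembly
-/

set_option autoImplicit false

namespace Pool.Agent.H68.BJ

open Finset

section
variable {V : Type} [DecidableEq V]

theorem Reach.mono {B C : Finset (V × V)} (h : B ⊆ C) {u v : V} (huv : Reach B u v) :
    Reach C u v := by
  unfold Reach at *
  induction huv with
  | refl => exact Relation.ReflTransGen.refl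
  | tail _ hbc ih => exact ih.tail (h hbc)

theorem mem_rev (A : Finset (V × V)) (a : V × V) : a ∈ rev A ↔ a.swap ∈ A := by
  unfold rev
  rw [mem_image]
  constructor
  · rintro ⟨b, hb, rfl⟩
    simpa using hb
  · intro h
    exact ⟨a.swap, h, by simp⟩

theorem outDeg_rev (A : Finset (V × V)) (v : V) : outDeg (rev A) v = inDeg A v := by
  unfold outDeg inDeg
  refine card_bij' (fun a _ => a.swap) (fun a _ => a.swap) ?_ ?_ ?_ ?_
  · intro a ha
    rw [mem_filter, mem_rev] at ha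
    rw [mem_filter]
    exact ⟨ha.1, ha.2⟩
  · intro a ha
    rw [mem_filter] at ha
    rw [mem_filter, mem_rev]
    exact ⟨by simpa using ha.1, ha.2⟩
  · intro a _; simp
  · intro a _; simp

theorem indep_rev (A : Finset (V × V)) (S : Finset V) (h : Indep (rev A) S) : Indep A S := by
  intro u hu v hv huv h1
  apply h v hv u hu huv.symm
  rw [mem_rev]
  exact h1

end

theorem cut_of_arcStrong {V : Type} [Fintype V] [DecidableEq V] (K : ℕ) (A : Finset (V × V))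
    (h : Pool.Agent.H67.BJY.ArcStrong K A) (X : Finset V) (hX : X.Nonempty) (hX' : X ≠ univ) :
    K ≤ dIn A X := by
  by_contra hlt
  push Not at hlt
  obtain ⟨v, hv⟩ := hX
  obtain ⟨u, hu⟩ : ∃ u, u ∉ X := by
    by_contra hc
    push Not at hc
    exact hX' (eq_univ_iff_forall.2 hc)
  have h1 := h (A.filter (fun a => a.1 ∉ X ∧ a.2 ∈ X)) (filter_subset _ _) hlt u v
  have h2 : ∀ w, Relation.ReflTransGen (fun a b : V => (a, b) ∈ A \ A.filter
      (fun a => a.1 ∉ X ∧ a.2 ∈ X)) u w → w ∉ X := by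
    intro w hw
    induction hw with
    | refl => exact hu
    | tail _ hbc ih =>
      intro hc
      rw [mem_sdiff, mem_filter] at hbc
      exact hbc.2 ⟨hbc.1, ih, hc⟩
  exact h2 v h1 hv


/-- The weight function. -/
noncomputable def wt (ℓ c : ℕ) (j : ℕ) : ℝ := (1 - 1 / (ℓ : ℝ)) ^ (j - c)

theorem q_nonneg (ℓ : ℕ) (hℓ : 1 ≤ ℓ) : (0 : ℝ) ≤ 1 - 1 / (ℓ : ℝ) := by
  have h : (1 : ℝ) ≤ ℓ := by exact_mod_cast hℓ
  have h2 : 1 / (ℓ : ℝ) ≤ 1 := by
    rw [div_le_one (by linarith)]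
    exact h
  linarith

theorem q_lt_one (ℓ : ℕ) (hℓ : 1 ≤ ℓ) : 1 - 1 / (ℓ : ℝ) < 1 := by
  have h : (1 : ℝ) ≤ ℓ := by exact_mod_cast hℓ
  have h2 : 0 < 1 / (ℓ : ℝ) := by positivity
  linarith

theorem wt_anti (ℓ c : ℕ) (hℓ : 1 ≤ ℓ) : Antitone (wt ℓ c) := by
  intro i j hij
  unfold wt
  exact pow_le_pow_of_le_one (q_nonneg ℓ hℓ) (q_lt_one ℓ hℓ).le (by omega)

theorem wt_nonneg (ℓ c : ℕ) (hℓ : 1 ≤ ℓ) (j : ℕ) : 0 ≤ wt ℓ c j :=
  pow_nonneg (q_nonneg ℓ hℓ) _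

theorem wt_sum (ℓ c : ℕ) (hℓ : 1 ≤ ℓ) (m : ℕ) :
    ∑ j ∈ range m, wt ℓ c j ≤ (c : ℝ) + ℓ := by
  have hℓ' : (1 : ℝ) ≤ ℓ := by exact_mod_cast hℓ
  have hgeo : ∀ k : ℕ, ∑ j ∈ range k, (1 - 1 / (ℓ : ℝ)) ^ j ≤ ℓ := by
    intro k
    have hne : (1 - 1 / (ℓ : ℝ)) ≠ 1 := (q_lt_one ℓ hℓ).ne
    rw [geom_sum_eq hne]
    have h1 : (0 : ℝ) ≤ (1 - 1 / (ℓ : ℝ)) ^ k := pow_nonneg (q_nonneg ℓ hℓ) _
    have h2 : (1 - 1 / (ℓ : ℝ)) - 1 = - (1 / (ℓ : ℝ)) := by ring
    rw [h2, div_neg, ← neg_div, div_le_iff₀ (by positivity)]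
    have h3 : (ℓ : ℝ) * (1 / ℓ) = 1 := by field_simp
    rw [h3]
    linarith
  by_cases hm : m ≤ c
  · calc ∑ j ∈ range m, wt ℓ c j ≤ ∑ j ∈ range m, (1 : ℝ) := by
          apply sum_le_sum
          intro j _
          unfold wt
          exact pow_le_one₀ (q_nonneg ℓ hℓ) (q_lt_one ℓ hℓ).le
      _ = m := by simp
      _ ≤ c := by exact_mod_cast hm
      _ ≤ _ := by linarith
  · push Not at hm
    obtain ⟨k, rfl⟩ := Nat.exists_eq_add_of_le hm.le
    rw [sum_range_add]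
    have h1 : ∑ j ∈ range c, wt ℓ c j ≤ c := by
      calc ∑ j ∈ range c, wt ℓ c j ≤ ∑ j ∈ range c, (1 : ℝ) := by
            apply sum_le_sum
            intro j _
            unfold wt
            exact pow_le_one₀ (q_nonneg ℓ hℓ) (q_lt_one ℓ hℓ).le
        _ = c := by simp
    have h2 : ∑ j ∈ range k, wt ℓ c (c + j) ≤ ℓ := by
      have : ∀ j ∈ range k, wt ℓ c (c + j) = (1 - 1 / (ℓ : ℝ)) ^ j := by
        intro j _
        unfold wt
        congr 1
        omega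
      rw [sum_congr rfl this]
      exact hgeo k
    linarith

/-- `(1 - 1/ℓ)^ℓ ≤ 1/2`. -/
theorem q_pow_le (ℓ : ℕ) (hℓ : 1 ≤ ℓ) : (1 - 1 / (ℓ : ℝ)) ^ ℓ ≤ 1 / 2 := by
  have hℓ' : (1 : ℝ) ≤ ℓ := by exact_mod_cast hℓ
  have h1 : (2 : ℝ) ≤ (1 + 1 / (ℓ : ℝ)) ^ ℓ := by
    have := one_add_mul_le_pow (a := 1 / (ℓ : ℝ)) (by
      have : (0 : ℝ) ≤ 1 / (ℓ : ℝ) := by positivity
      linarith) ℓ
    have h3 : (ℓ : ℝ) * (1 / ℓ) = 1 := by field_simp
    rw [h3] at this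
    linarith
  have h2 : ((1 - 1 / (ℓ : ℝ)) * (1 + 1 / (ℓ : ℝ))) ^ ℓ ≤ 1 := by
    apply pow_le_one₀
    · apply mul_nonneg (q_nonneg ℓ hℓ)
      positivity
    · have : (0 : ℝ) ≤ (1 / (ℓ : ℝ)) ^ 2 := by positivity
      nlinarith
  rw [mul_pow] at h2
  have h4 : (0 : ℝ) ≤ (1 - 1 / (ℓ : ℝ)) ^ ℓ := pow_nonneg (q_nonneg ℓ hℓ) _
  nlinarith

theorem arith (y m : ℕ) (hm : m = 2 * Nat.log 2 y + 8) : 6 * y * (m + 1) < 2 ^ m := by
  have h1 : y < 2 ^ (Nat.log 2 y + 1) := Nat.lt_pow_succ_log_self (by norm_num) y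
  set L := Nat.log 2 y with hL
  have h2 : ∀ L : ℕ, 12 * (2 * L + 9) ≤ 256 * 2 ^ L := by
    intro L
    induction L with
    | zero => norm_num
    | succ L ih => rw [pow_succ]; have : 1 ≤ 2 ^ L := Nat.one_le_two_pow; omega
  have h3 := h2 L
  subst hm
  have h4 : (2 : ℕ) ^ (2 * L + 8) = 2 ^ L * (256 * 2 ^ L) := by ring
  rw [h4]
  have h5 : (2 : ℕ) ^ (L + 1) = 2 * 2 ^ L := by ring
  rw [h5] at h1
  have h6 : 0 < 2 ^ L := by positivity
  calc 6 * y * (2 * L + 8 + 1) < 6 * (2 * 2 ^ L) * (2 * L + 8 + 1) := by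
        apply Nat.mul_lt_mul_of_pos_right _ (by omega)
        omega
    _ = 2 ^ L * (12 * (2 * L + 9)) := by ring
    _ ≤ 2 ^ L * (256 * 2 ^ L) := Nat.mul_le_mul_left _ h3


theorem card_rev {V : Type} [DecidableEq V] (A : Finset (V × V)) : (rev A).card = A.card := by
  unfold rev
  exact card_image_of_injective _ Prod.swap_injective

/-- Walk along a ranking until the hub set is reached. -/
theorem climb {V : Type} [Fintype V] [DecidableEq V] (B : Finset (V × V)) (ρ : V → ℤ)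
    (Z : Finset V) (h : ∀ v, v ∉ Z → ∃ w, (v, w) ∈ B ∧ ρ v < ρ w) (v : V) :
    ∃ z ∈ Z, Reach B v z := by
  classical
  let T : Finset V := univ.filter (fun w => Reach B v w)
  have hT : T.Nonempty := ⟨v, by simp only [T, mem_filter, mem_univ, true_and]; exact Relation.ReflTransGen.refl⟩
  obtain ⟨w, hw, hmax⟩ := exists_max_image T ρ hT
  simp only [T, mem_filter, mem_univ, true_and] at hw hmax
  by_cases hwZ : w ∈ Z
  · exact ⟨w, hwZ, hw⟩
  · obtain ⟨w', hw', hlt⟩ := h w hwZ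
    have := hmax w' (hw.tail hw')
    omega

/-- The same, backwards. -/
theorem climb_rev {V : Type} [Fintype V] [DecidableEq V] (B : Finset (V × V)) (ρ : V → ℤ)
    (Z : Finset V) (h : ∀ v, v ∉ Z → ∃ w, (w, v) ∈ B ∧ ρ v < ρ w) (v : V) :
    ∃ z ∈ Z, Reach B z v := by
  classical
  let T : Finset V := univ.filter (fun w => Reach B w v)
  have hT : T.Nonempty := ⟨v, by simp only [T, mem_filter, mem_univ, true_and]; exact Relation.ReflTransGen.refl⟩
  obtain ⟨w, hw, hmax⟩ := exists_max_image T ρ hT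
  simp only [T, mem_filter, mem_univ, true_and] at hw hmax
  by_cases hwZ : w ∈ Z
  · exact ⟨w, hwZ, hw⟩
  · obtain ⟨w', hw', hlt⟩ := h w hwZ
    have := hmax w' (Relation.ReflTransGen.head hw' hw)
    omega

/-- Weight sums bound the number of hubs and the failure probabilities. -/
theorem hub_bounds {V : Type} [Fintype V] [DecidableEq V] (ℓ c : ℕ) (hℓ : 1 ≤ ℓ) (f : V → ℕ)
    (R : ℝ) (h : ∑ v, wt ℓ c (f v) ≤ R) :
    ((univ.filter (fun v => f v < c)).card : ℝ) ≤ R ∧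
    ∑ v ∈ (univ.filter (fun v => f v < c))ᶜ, (ℓ : ℝ) * (1 - 1 / (ℓ : ℝ)) ^ (f v) ≤
      ℓ * (1 - 1 / (ℓ : ℝ)) ^ c * R := by
  constructor
  · calc ((univ.filter (fun v => f v < c)).card : ℝ)
        = ∑ v ∈ univ.filter (fun v => f v < c), (1 : ℝ) := by simp
      _ = ∑ v ∈ univ.filter (fun v => f v < c), wt ℓ c (f v) := by
          apply sum_congr rfl
          intro v hv
          rw [mem_filter] at hv
          unfold wt
          rw [Nat.sub_eq_zero_of_le hv.2.le, pow_zero]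
      _ ≤ ∑ v, wt ℓ c (f v) := by
          apply sum_le_sum_of_subset_of_nonneg (subset_univ _)
          intro v _ _
          exact wt_nonneg ℓ c hℓ _
      _ ≤ R := h
  · have hq := q_nonneg ℓ hℓ
    calc ∑ v ∈ (univ.filter (fun v => f v < c))ᶜ, (ℓ : ℝ) * (1 - 1 / (ℓ : ℝ)) ^ (f v)
        = ∑ v ∈ (univ.filter (fun v => f v < c))ᶜ,
            (ℓ : ℝ) * (1 - 1 / (ℓ : ℝ)) ^ c * wt ℓ c (f v) := by
          apply sum_congr rfl
          intro v hv
          rw [mem_compl, mem_filter] at hv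
          have hv' : c ≤ f v := by
            by_contra hc
            exact hv ⟨mem_univ _, by omega⟩
          unfold wt
          rw [mul_assoc, ← pow_add]
          congr 2
          omega
      _ = ℓ * (1 - 1 / (ℓ : ℝ)) ^ c * ∑ v ∈ (univ.filter (fun v => f v < c))ᶜ, wt ℓ c (f v) := by
          rw [mul_sum]
      _ ≤ ℓ * (1 - 1 / (ℓ : ℝ)) ^ c * ∑ v, wt ℓ c (f v) := by
          apply mul_le_mul_of_nonneg_left _ (by positivity)
          apply sum_le_sum_of_subset_of_nonneg (subset_univ _)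
          intro v _ _
          exact wt_nonneg ℓ c hℓ _
      _ ≤ _ := mul_le_mul_of_nonneg_left h (by positivity)

theorem main {V : Type} [Fintype V] [DecidableEq V] (ℓ x K : ℕ) (hℓ : 1 ≤ ℓ)
    (hK : 6 * (ℓ ^ 2 * x) * (2 * Nat.log 2 (ℓ ^ 2 * x) + 9) ≤ K)
    (A : Finset (V × V)) (hA : ∀ v : V, (v, v) ∉ A)
    (hs : Pool.Agent.H67.BJY.ArcStrong K A)
    (hout : ∀ I : Finset V, Indep A I → (∀ v ∈ I, x * outDeg A v < Fintype.card V) → I.card ≤ x)
    (hin : ∀ I : Finset V, Indep A I → (∀ v ∈ I, x * inDeg A v < Fintype.card V) → I.card ≤ x) :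
    ∃ B : Fin ℓ → Finset (V × V), (∀ i, B i ⊆ A) ∧ (∀ i j, i ≠ j → Disjoint (B i) (B j)) ∧
      ∀ i u v, Reach (B i) u v := by
  classical
  haveI : NeZero ℓ := ⟨by omega⟩
  rcases isEmpty_or_nonempty V with hV | ⟨⟨r⟩⟩
  · exact ⟨fun _ => ∅, fun _ => empty_subset _, fun _ _ _ => disjoint_empty_left _,
      fun _ u _ => (hV.false u).elim⟩
  obtain ⟨m, hm⟩ : ∃ m, m = 2 * Nat.log 2 (ℓ ^ 2 * x) + 8 := ⟨_, rfl⟩
  obtain ⟨c, hc⟩ : ∃ c, c = ℓ * m := ⟨_, rfl⟩
  have hA' : ∀ v : V, (v, v) ∉ rev A := by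
    intro v hv
    rw [mem_rev] at hv
    exact hA v hv
  obtain ⟨ρ, hρ⟩ := out_ranking A hA x hout (wt ℓ c) (c + ℓ) (wt_anti ℓ c hℓ)
    (wt_nonneg ℓ c hℓ) (wt_sum ℓ c hℓ)
  obtain ⟨τ, hτ⟩ := out_ranking (rev A) hA' x (by
    intro I hI h2
    apply hin I (indep_rev A I hI)
    intro v hv
    rw [← outDeg_rev]
    exact h2 v hv) (wt ℓ c) (c + ℓ) (wt_anti ℓ c hℓ)
    (wt_nonneg ℓ c hℓ) (wt_sum ℓ c hℓ)
  obtain ⟨hZt, hFt⟩ := hub_bounds ℓ c hℓ (fun v => fwd A ρ v) _ hρ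
  obtain ⟨hZs, hFs⟩ := hub_bounds ℓ c hℓ (fun v => fwd (rev A) τ v) _ hτ
  set Zt : Finset V := univ.filter (fun v => fwd A ρ v < c) with hZt_def
  set Zs : Finset V := univ.filter (fun v => fwd (rev A) τ v < c) with hZs_def
  -- number of paths
  have hN : ℓ * (Zt.card + Zs.card) ≤ K := by
    refine le_trans ?_ hK
    have h1 : ((ℓ * (Zt.card + Zs.card) : ℕ) : ℝ) ≤
        ((6 * (ℓ ^ 2 * x) * (2 * Nat.log 2 (ℓ ^ 2 * x) + 9) : ℕ) : ℝ) := by
      have h2 : ((Zt.card : ℝ) + Zs.card) ≤ 3 * x * (c + ℓ) + 3 * x * (c + ℓ) := add_le_add hZt hZs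
      have h3 : (2 * Nat.log 2 (ℓ ^ 2 * x) + 9) = m + 1 := by omega
      rw [h3]
      push_cast
      have hc' : (c : ℝ) = ℓ * m := by rw [hc]; push_cast; ring
      rw [hc'] at h2
      have h4 : (0 : ℝ) ≤ ℓ := Nat.cast_nonneg _
      calc (ℓ : ℝ) * ((Zt.card : ℝ) + Zs.card)
          ≤ ℓ * (3 * x * (ℓ * m + ℓ) + 3 * x * (ℓ * m + ℓ)) := mul_le_mul_of_nonneg_left h2 h4
        _ = _ := by ring
    exact_mod_cast h1
  -- the branchings
  let ι : Type := (↥Zt ⊕ ↥Zs) × ZMod ℓ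
  let src : ι → V := fun y => match y.1 with
    | Sum.inl z => (z : V)
    | Sum.inr _ => r
  let tgt : ι → V := fun y => match y.1 with
    | Sum.inl _ => r
    | Sum.inr z => (z : V)
  have hcard : Fintype.card ι ≤ K := by
    have : Fintype.card ι = ℓ * (Zt.card + Zs.card) := by
      simp only [ι, Fintype.card_prod, Fintype.card_sum, Fintype.card_coe, ZMod.card]
      ring
    rw [this]
    exact hN
  let e : ι ≃ Fin (Fintype.card ι) := Fintype.equivFin ι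
  obtain ⟨B0, hB0A, hB0d, hB0r⟩ := edmonds (Fintype.card ι) A (fun i => src (e.symm i)) (by
    intro X hX
    by_cases hXu : X = univ
    · subst hXu
      simp
    · refine le_trans ?_ (cut_of_arcStrong K A hs X hX hXu)
      refine le_trans ?_ hcard
      calc (univ.filter (fun i : Fin (Fintype.card ι) => src (e.symm i) ∉ X)).card
          ≤ (univ : Finset (Fin (Fintype.card ι))).card := card_le_card (filter_subset _ _)
        _ = Fintype.card ι := by simp)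
  have hpath : ∀ y : ι, ∃ P : Finset (V × V), P ⊆ B0 (e y) ∧ Reach P (src y) (tgt y) ∧
      (∀ a ∈ P, ∀ b ∈ P, a.1 = b.1 → a = b) ∧ (∀ a ∈ P, ∀ b ∈ P, a.2 = b.2 → a = b) := by
    intro y
    apply exists_path
    have := hB0r (e y) (tgt y)
    simpa using this
  choose P hPB hPr hP1 hP2 using hpath
  have hPd : ∀ y y' : ι, ∀ a, a ∈ P y → a ∈ P y' → y = y' := by
    intro y y' a ha ha'
    by_contra hne
    have h1 : e y ≠ e y' := fun h => hne (e.injective h)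
    exact disjoint_left.1 (hB0d _ _ h1) (hPB y ha) (hPB y' ha')
  let var : V × V → (↥Zt ⊕ ↥Zs) ⊕ (V × V) := fun a =>
    if h : ∃ y : ι, a ∈ P y then Sum.inl h.choose.1 else Sum.inr a
  let sgn : V × V → ZMod ℓ := fun a =>
    if h : ∃ y : ι, a ∈ P y then h.choose.2 else 0
  have hvar : ∀ y a, a ∈ P y → var a = Sum.inl y.1 ∧ sgn a = y.2 := by
    intro y a ha
    have h : ∃ y : ι, a ∈ P y := ⟨y, ha⟩
    have h1 : h.choose = y := hPd _ _ a h.choose_spec ha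
    constructor
    · simp only [var, dif_pos h, h1]
    · simp only [sgn, dif_pos h, h1]
  have hvar' : ∀ a, (¬ ∃ y : ι, a ∈ P y) → var a = Sum.inr a := by
    intro a h
    simp only [var, dif_neg h]
  have hkey : ∀ a b, var a = var b → sgn a = sgn b → (a.1 = b.1 ∨ a.2 = b.2) → a = b := by
    intro a b h1 h2 h3
    by_cases ha : ∃ y : ι, a ∈ P y
    · obtain ⟨y, hy⟩ := ha
      by_cases hb : ∃ y : ι, b ∈ P y
      · obtain ⟨y', hy'⟩ := hb
        obtain ⟨g1, g2⟩ := hvar y a hy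
        obtain ⟨g3, g4⟩ := hvar y' b hy'
        have g5 : y.1 = y'.1 := by
          rw [g1, g3] at h1
          exact Sum.inl.inj h1
        have g6 : y.2 = y'.2 := by rw [← g2, ← g4, h2]
        have g7 : y = y' := Prod.ext g5 g6
        subst g7
        rcases h3 with h3 | h3
        · exact hP1 y a hy b hy' h3
        · exact hP2 y a hy b hy' h3
      · rw [(hvar y a hy).1, hvar' b hb] at h1
        cases h1
    · by_cases hb : ∃ y : ι, b ∈ P y
      · obtain ⟨y', hy'⟩ := hb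
        rw [(hvar y' b hy').1, hvar' a ha] at h1
        cases h1
      · rw [hvar' a ha, hvar' b hb] at h1
        exact Sum.inr.inj h1
  let F : V ⊕ V → Finset (V × V) := fun i => match i with
    | Sum.inl v => fwdSet A ρ v
    | Sum.inr v => rev (fwdSet (rev A) τ v)
  obtain ⟨ω, hω⟩ := exists_colouring ℓ (Ztᶜ.disjSum Zsᶜ) F var sgn (by
    intro i _ a ha b hb h1 h2
    apply hkey a b h1 h2
    rcases i with v | v
    · left
      simp only [F, fwdSet, mem_filter] at ha hb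
      rw [ha.2.1, hb.2.1]
    · right
      simp only [F, fwdSet, mem_rev, mem_filter] at ha hb
      have e1 : a.2 = v := ha.2.1
      have e2 : b.2 = v := hb.2.1
      rw [e1, e2]) (by
    rw [sum_disjSum]
    have h1 : ∑ v ∈ Ztᶜ, (ℓ : ℝ) * (1 - 1 / (ℓ : ℝ)) ^ (F (Sum.inl v)).card ≤
        ℓ * (1 - 1 / (ℓ : ℝ)) ^ c * (3 * x * (c + ℓ)) := hFt
    have h2 : ∑ v ∈ Zsᶜ, (ℓ : ℝ) * (1 - 1 / (ℓ : ℝ)) ^ (F (Sum.inr v)).card ≤
        ℓ * (1 - 1 / (ℓ : ℝ)) ^ c * (3 * x * (c + ℓ)) := by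
      refine le_trans (le_of_eq ?_) hFs
      apply sum_congr rfl
      intro v _
      simp only [F, card_rev]
      rfl
    have h3 : (1 - 1 / (ℓ : ℝ)) ^ c ≤ (1 / 2) ^ m := by
      rw [hc, pow_mul]
      exact pow_le_pow_left₀ (pow_nonneg (q_nonneg ℓ hℓ) _) (q_pow_le ℓ hℓ) m
    have h4 : (6 : ℝ) * (ℓ ^ 2 * x) * (m + 1) < 2 ^ m := by
      have := arith (ℓ ^ 2 * x) m hm
      exact_mod_cast this
    have hc' : (c : ℝ) = ℓ * m := by rw [hc]; push_cast; ring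
    have h5 : (ℓ : ℝ) * (1 - 1 / (ℓ : ℝ)) ^ c * (3 * x * (c + ℓ)) +
        ℓ * (1 - 1 / (ℓ : ℝ)) ^ c * (3 * x * (c + ℓ)) =
        (1 - 1 / (ℓ : ℝ)) ^ c * (6 * (ℓ ^ 2 * x) * (m + 1)) := by
      rw [hc']; ring
    have h6 : (1 - 1 / (ℓ : ℝ)) ^ c * (6 * (ℓ ^ 2 * x) * (m + 1)) ≤
        (1 / 2) ^ m * (6 * (ℓ ^ 2 * x) * (m + 1)) :=
      mul_le_mul_of_nonneg_right h3 (by positivity)
    have h7 : ((1 : ℝ) / 2) ^ m * (6 * (ℓ ^ 2 * x) * (m + 1)) < (1 / 2) ^ m * 2 ^ m :=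
      mul_lt_mul_of_pos_left h4 (by positivity)
    have h8 : ((1 : ℝ) / 2) ^ m * 2 ^ m = 1 := by
      rw [← mul_pow]; norm_num
    linarith)
  let B : ZMod ℓ → Finset (V × V) := fun κ => A.filter (fun a => ω (var a) + sgn a = κ)
  have hstrong : ∀ κ u v, Reach (B κ) u v := by
    intro κ u v
    -- up
    obtain ⟨z, hz, huz⟩ := climb (B κ) ρ Zt (by
      intro w hw
      obtain ⟨a, ha, hcol⟩ := hω (Sum.inl w) (by
        rw [inl_mem_disjSum, mem_compl]; exact hw) κ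
      simp only [F, fwdSet, mem_filter] at ha
      refine ⟨a.2, ?_, ha.2.2⟩
      simp only [B, mem_filter]
      have : (w, a.2) = a := by rw [← ha.2.1]
      rw [this]
      exact ⟨ha.1, hcol⟩) u
    obtain ⟨z', hz', hz'v⟩ := climb_rev (B κ) τ Zs (by
      intro w hw
      obtain ⟨a, ha, hcol⟩ := hω (Sum.inr w) (by
        rw [inr_mem_disjSum, mem_compl]; exact hw) κ
      simp only [F, fwdSet, mem_rev, mem_filter] at ha
      refine ⟨a.1, ?_, ha.2.2⟩
      simp only [B, mem_filter]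
      have e1 : a.2 = w := ha.2.1
      have : (a.1, w) = a := by rw [← e1]
      rw [this]
      refine ⟨by simpa using ha.1, hcol⟩) v
    have hz1 : Reach (B κ) z r := by
      have h1 := hPr (Sum.inl ⟨z, hz⟩, κ - ω (Sum.inl (Sum.inl ⟨z, hz⟩)))
      refine Reach.mono ?_ h1
      intro a ha
      obtain ⟨g1, g2⟩ := hvar _ a ha
      simp only [B, mem_filter]
      refine ⟨hB0A _ (hPB _ ha), ?_⟩
      rw [g1, g2]
      ring
    have hz2 : Reach (B κ) r z' := by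
      have h1 := hPr (Sum.inr ⟨z', hz'⟩, κ - ω (Sum.inl (Sum.inr ⟨z', hz'⟩)))
      refine Reach.mono ?_ h1
      intro a ha
      obtain ⟨g1, g2⟩ := hvar _ a ha
      simp only [B, mem_filter]
      refine ⟨hB0A _ (hPB _ ha), ?_⟩
      rw [g1, g2]
      ring
    exact ((huz.trans hz1).trans hz2).trans hz'v
  have hdisj : ∀ i j : ZMod ℓ, i ≠ j → Disjoint (B i) (B j) := by
    intro i j hij
    rw [disjoint_left]
    intro a ha hb
    simp only [B, mem_filter] at ha hb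
    exact hij (ha.2.symm.trans hb.2)
  let g : Fin ℓ ≃ ZMod ℓ := (Fintype.equivFinOfCardEq (ZMod.card ℓ)).symm
  refine ⟨fun i => B (g i), fun i => filter_subset _ _, fun i j hij => ?_,
    fun i u v => hstrong (g i) u v⟩
  exact hdisj _ _ (fun h => hij (g.injective h))

end Pool.Agent.H68.BJ
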