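import Pool.Agent.H68.BJ.Defs

/-!
# MED: median order and independent sets

`median`: Among all injective `ρ : V → ℤ` choose one with the minimum number
`back ρ = #{a ∈ A | ρ a.2 < ρ a.1}` (a natural number, so a minimum exists; injective `ρ` exist
as `V` is finite).  For `v : V` let `ρ' = Function.update ρ v M` with `M > ρ w` for all `w`.
`ρ'` is injective and `back ρ' + bwd A ρ v = back ρ + fwd A ρ v`: the arcs not at `v` do not
change; the arcs out of `v` are all backward for `ρ'` (`fwd A ρ v` of them were forward; there is
no loop); the arcs into `v` are all forward for `ρ'` (`bwd A ρ v` of them were backward).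
Minimality gives `bwd A ρ v ≤ fwd A ρ v`.

`indep_of_few`: Let every `v ∈ Z` have `fwd A ρ v ≤ j`.  Induction on `#Z`: take `u ∈ Z` of
minimum rank; its neighbours in `Z` (in either direction) have larger rank, so there are at most
`fwd A ρ u + bwd A ρ u ≤ 2 j` of them; delete `u` and these neighbours, get an independent
`I' ⊆ Z'` with `#Z' ≤ (2 j + 1) #I'`, and put `I = insert u I'`.
-/

set_option autoImplicit false

namespace Pool.Agent.H68.BJ

private def MED_back {V : Type} [DecidableEq V] (A : Finset (V × V)) (ρ : V → ℤ) : ℕ :=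
  (A.filter (fun a => ρ a.2 < ρ a.1)).card

private theorem MED_move {V : Type} [DecidableEq V] (A : Finset (V × V))
    (hA : ∀ v : V, (v, v) ∉ A) (ρ : V → ℤ) (hρ : Function.Injective ρ) (v : V) (M : ℤ)
    (hM : ∀ w, ρ w < M) :
    MED_back A (Function.update ρ v M) + bwd A ρ v = MED_back A ρ + fwd A ρ v := by
  unfold MED_back bwd fwd fwdSet
  simp only [Finset.card_filter]
  rw [← Finset.sum_add_distrib, ← Finset.sum_add_distrib]
  apply Finset.sum_congr rfl
  rintro ⟨x, y⟩ ha
  simp only
  by_cases hx : x = v
  · subst hx
    have hy : y ≠ x := by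
      rintro rfl
      exact hA _ ha
    rw [Function.update_self, Function.update_of_ne hy]
    have h1 := hM y
    have h2 : ρ y ≠ ρ x := fun h => hy (hρ h)
    rcases lt_or_gt_of_ne h2 with h3 | h3
    · simp [h1, hy, h3, h3.le]
    · simp [h1, hy, h3, h3.le]
  · by_cases hy : y = v
    · subst hy
      rw [Function.update_self, Function.update_of_ne hx]
      have h1 := hM x
      simp [hx, h1.le]
    · rw [Function.update_of_ne hx, Function.update_of_ne hy]
      simp [hx, hy]

theorem median {V : Type} [Fintype V] [DecidableEq V] (A : Finset (V × V))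
    (hA : ∀ v : V, (v, v) ∉ A) :
    ∃ ρ : V → ℤ, Function.Injective ρ ∧ ∀ v, bwd A ρ v ≤ fwd A ρ v := by
  classical
  have hex : ∃ n : ℕ, ∃ ρ : V → ℤ, Function.Injective ρ ∧ MED_back A ρ = n := by
    refine ⟨_, fun v => ((Fintype.equivFin V v : ℕ) : ℤ), ?_, rfl⟩
    intro x y h
    have h1 : (Fintype.equivFin V x : ℕ) = (Fintype.equivFin V y : ℕ) := by
      have h2 : ((Fintype.equivFin V x : ℕ) : ℤ) = ((Fintype.equivFin V y : ℕ) : ℤ) := h
      exact_mod_cast h2
    exact (Fintype.equivFin V).injective (Fin.ext h1)
  obtain ⟨ρ, hρ, hmin⟩ := Nat.find_spec hex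
  refine ⟨ρ, hρ, fun v => ?_⟩
  obtain ⟨M, hM⟩ : ∃ M : ℤ, ∀ w, ρ w < M := by
    obtain ⟨M, hM⟩ := (Set.finite_range ρ).bddAbove
    exact ⟨M + 1, fun w => by
      have := hM ⟨w, rfl⟩
      linarith⟩
  have h1 := MED_move A hA ρ hρ v M hM
  have h2 : Function.Injective (Function.update ρ v M) := by
    intro x y h
    by_cases hx : x = v
    · by_cases hy : y = v
      · rw [hx, hy]
      · rw [hx, Function.update_self, Function.update_of_ne hy] at h
        have := hM y
        omega
    · by_cases hy : y = v
      · rw [hy, Function.update_self, Function.update_of_ne hx] at h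
        have := hM x
        omega
      · rw [Function.update_of_ne hx, Function.update_of_ne hy] at h
        exact hρ h
  have h3 := Nat.find_min' hex ⟨_, h2, rfl⟩
  rw [← hmin] at h3
  omega

theorem indep_of_few {V : Type} [Fintype V] [DecidableEq V] (A : Finset (V × V)) (ρ : V → ℤ)
    (hρ : Function.Injective ρ) (hb : ∀ v, bwd A ρ v ≤ fwd A ρ v) (j : ℕ) (Z : Finset V)
    (hZ : ∀ v ∈ Z, fwd A ρ v ≤ j) :
    ∃ I ⊆ Z, Indep A I ∧ Z.card ≤ (2 * j + 1) * I.card := by
  induction Z using Finset.strongInduction with
  | H Z ih =>
    rcases Z.eq_empty_or_nonempty with h0 | h0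
    · refine ⟨∅, Finset.empty_subset _, ?_, by simp [h0]⟩
      intro u hu
      simp at hu
    · obtain ⟨u, huZ, humin⟩ := Finset.exists_min_image Z ρ h0
      set N1 := (Z.erase u).filter (fun w => (u, w) ∈ A) with hN1
      set N2 := (Z.erase u).filter (fun w => (w, u) ∈ A) with hN2
      set Z' := Z \ (insert u (N1 ∪ N2)) with hZ'
      have hss : Z' ⊂ Z := by
        rw [hZ', Finset.ssubset_iff_subset_ne]
        refine ⟨Finset.sdiff_subset, fun h => ?_⟩
        rw [← h, Finset.mem_sdiff] at huZ
        exact huZ.2 (Finset.mem_insert_self _ _)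
      obtain ⟨I', hI'Z, hI'i, hI'c⟩ := ih Z' hss (fun v hv => hZ v (hss.1 hv))
      have hlt : ∀ w ∈ Z.erase u, ρ u < ρ w := by
        intro w hw
        rw [Finset.mem_erase] at hw
        exact lt_of_le_of_ne (humin w hw.2) fun h => hw.1 (hρ h).symm
      have hc1 : N1.card ≤ fwd A ρ u := by
        unfold fwd fwdSet
        apply Finset.card_le_card_of_injOn (fun w => (u, w))
        · intro w hw
          rw [Finset.mem_coe, hN1, Finset.mem_filter] at hw
          rw [Finset.mem_coe, Finset.mem_filter]
          exact ⟨hw.2, rfl, hlt w hw.1⟩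
        · intro x _ y _ h
          exact (Prod.mk.inj h).2
      have hc2 : N2.card ≤ bwd A ρ u := by
        unfold bwd
        apply Finset.card_le_card_of_injOn (fun w => (w, u))
        · intro w hw
          rw [Finset.mem_coe, hN2, Finset.mem_filter] at hw
          rw [Finset.mem_coe, Finset.mem_filter]
          exact ⟨hw.2, rfl, hlt w hw.1⟩
        · intro x _ y _ h
          exact (Prod.mk.inj h).1
      have huI' : u ∉ I' := by
        intro h
        have := hI'Z h
        rw [hZ', Finset.mem_sdiff] at this
        exact this.2 (Finset.mem_insert_self _ _)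
      have hout : ∀ w ∈ I', (u, w) ∉ A ∧ (w, u) ∉ A := by
        intro w hw
        have h1 := hI'Z hw
        rw [hZ', Finset.mem_sdiff] at h1
        have hwu : w ≠ u := by
          rintro rfl
          exact huI' hw
        have hwe : w ∈ Z.erase u := Finset.mem_erase.2 ⟨hwu, h1.1⟩
        constructor
        · intro h
          exact h1.2 (Finset.mem_insert_of_mem (Finset.mem_union_left _
            (Finset.mem_filter.2 ⟨hwe, h⟩)))
        · intro h
          exact h1.2 (Finset.mem_insert_of_mem (Finset.mem_union_right _
            (Finset.mem_filter.2 ⟨hwe, h⟩)))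
      refine ⟨insert u I', ?_, ?_, ?_⟩
      · intro w hw
        rcases Finset.mem_insert.1 hw with rfl | h
        · exact huZ
        · exact hss.1 (hI'Z h)
      · intro x hx y hy hxy
        rcases Finset.mem_insert.1 hx with rfl | hx'
        · rcases Finset.mem_insert.1 hy with rfl | hy'
          · exact absurd rfl hxy
          · exact (hout y hy').1
        · rcases Finset.mem_insert.1 hy with rfl | hy'
          · exact (hout x hx').2
          · exact hI'i x hx' y hy' hxy
      · rw [Finset.card_insert_of_notMem huI']
        have h1 : Z.card ≤ Z'.card + (insert u (N1 ∪ N2)).card := by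
          rw [hZ']
          have := Finset.le_card_sdiff (insert u (N1 ∪ N2)) Z
          omega
        have h2 : (insert u (N1 ∪ N2)).card ≤ N1.card + N2.card + 1 :=
          (Finset.card_insert_le _ _).trans (by
            have := Finset.card_union_le N1 N2
            omega)
        have h3 := hb u
        have h4 := hZ u huZ
        have h5 : (2 * j + 1) * (I'.card + 1) = (2 * j + 1) * I'.card + (2 * j + 1) := by ring
        omega

end Pool.Agent.H68.BJ
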